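import Pool.Agent.Lgp.Defs

/-!
# Conditions on the slopes at a profinite integer
-/

namespace Pool.Agent.Lgo

open Pool.Agent.CTm Pool.Agent.Grm Pool.Agent.Lgp Nat

/-- the closure of the orbit of `y` is minimal -/
def MinPt (H : Subgroup (Equiv.Perm ℤ)) (y : ℕ → ℤ) : Prop :=
  ∀ z : ℕ → ℤ, Pro z → Clo H y z → Clo H z y

/-- the slopes of the germs at `y` of the elements of `H` are products of an element of a finite set and a
quotient of divisors of powers of `m` -/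
def UnitSlopes (m : ℕ) (H : Subgroup (Equiv.Perm ℤ)) (y : ℕ → ℤ) : Prop :=
  ∃ F : Finset ℚ, ∀ g ∈ H, ∀ a : ℚ × ℚ, Germ y g a →
    ∃ ρ ∈ F, ∃ u v e : ℕ, u ∣ m ^ e ∧ v ∣ m ^ e ∧ (v : ℚ) * a.1 = u * ρ

/-- the slopes of the germs at `y` of the elements of `H` are products of an element of a finite set and a power
of `m` (with exponent in `ℤ`) -/
def PowSlopes (m : ℕ) (H : Subgroup (Equiv.Perm ℤ)) (y : ℕ → ℤ) : Prop :=
  ∃ F : Finset ℚ, ∀ g ∈ H, ∀ a : ℚ × ℚ, Germ y g a → ∃ ρ ∈ F, ∃ k : ℤ, a.1 = (m : ℚ) ^ k * ρ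

/-- the slopes of the germs at `y` of the elements of `H` have a common denominator -/
def ComDen (H : Subgroup (Equiv.Perm ℤ)) (y : ℕ → ℤ) : Prop :=
  ∃ D : ℕ, 0 < D ∧ ∀ g ∈ H, ∀ a : ℚ × ℚ, Germ y g a → ∃ t : ℤ, a.1 * D = t

/-- for some modulus `L`, there are elements of `H` which are affine, with arbitrarily large slopes, on residue
classes modulo `L` which meet the orbit of `y` -/
def BigImage (H : Subgroup (Equiv.Perm ℤ)) (y : ℕ → ℤ) : Prop :=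
  ∃ L : ℕ, 0 < L ∧ ∀ k : ℕ, ∃ c ∈ H, ∃ h ∈ H, ∃ a : ℚ × ℚ, (k : ℚ) ≤ a.1 ∧
    ∃ i : ℕ, ∀ n : ℤ, ((i ! : ℕ) : ℤ) ∣ n - y i → ∀ t : ℤ,
      ((h (c n + L * t) : ℤ) : ℚ) = a.1 * ((c n + L * t : ℤ) : ℚ) + a.2

end Pool.Agent.Lgo
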