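import Mathlib

/-!
# Quotients of divisors of powers of `m`
-/

namespace Pool.Agent.Lgo

/-- `q` is a quotient of divisors of powers of `m` -/
def MU (m : ℕ) (q : ℚ) : Prop := ∃ u v e : ℕ, u ∣ m ^ e ∧ v ∣ m ^ e ∧ (v : ℚ) * q = u

variable {m : ℕ}

theorem MU.one (m : ℕ) : MU m 1 := ⟨1, 1, 0, by simp, by simp, by simp⟩

theorem MU.mul {p q : ℚ} (hp : MU m p) (hq : MU m q) : MU m (p * q) := by
  obtain ⟨u, v, e, h1, h2, h3⟩ := hp
  obtain ⟨u', v', e', h1', h2', h3'⟩ := hq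
  refine ⟨u * u', v * v', e + e', ?_, ?_, ?_⟩
  · rw [pow_add]
    exact mul_dvd_mul h1 h1'
  · rw [pow_add]
    exact mul_dvd_mul h2 h2'
  · push_cast
    rw [← h3, ← h3']
    ring

theorem ne_zero_of_dvd_pow (hm : 0 < m) {u e : ℕ} (h : u ∣ m ^ e) : u ≠ 0 := by
  rintro rfl
  have := Nat.eq_zero_of_zero_dvd h
  exact (pow_pos hm e).ne' this

theorem MU.inv (hm : 0 < m) {p : ℚ} (hp : MU m p) : MU m p⁻¹ := by
  obtain ⟨u, v, e, h1, h2, h3⟩ := hp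
  have hu : (u : ℚ) ≠ 0 := by exact_mod_cast ne_zero_of_dvd_pow hm h1
  have hp0 : p ≠ 0 := by
    rintro rfl
    rw [mul_zero] at h3
    exact hu h3.symm
  refine ⟨v, u, e, h2, h1, ?_⟩
  rw [← h3]
  field_simp

theorem MU.ne_zero (hm : 0 < m) {p : ℚ} (hp : MU m p) : p ≠ 0 := by
  obtain ⟨u, v, e, h1, h2, h3⟩ := hp
  have hu : (u : ℚ) ≠ 0 := by exact_mod_cast ne_zero_of_dvd_pow hm h1
  rintro rfl
  rw [mul_zero] at h3
  exact hu h3.symm

theorem MU.div (hm : 0 < m) {p q : ℚ} (hp : MU m p) (hq : MU m q) : MU m (p / q) := by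
  rw [div_eq_mul_inv]
  exact hp.mul (hq.inv hm)

theorem MU.int (hm : 0 < m) {p : ℚ} (hp : MU m p) : ∃ (t : ℕ) (z : ℤ), (m : ℚ) ^ t * p = z := by
  obtain ⟨u, v, e, h1, h2, h3⟩ := hp
  have hv : (v : ℚ) ≠ 0 := by exact_mod_cast ne_zero_of_dvd_pow hm h2
  obtain ⟨w, hw⟩ := h2
  refine ⟨e, w * u, ?_⟩
  have h4 : (m : ℚ) ^ e = v * w := by exact_mod_cast hw
  rw [h4]
  push_cast
  rw [← h3]
  ring

theorem MU.mono {m' : ℕ} (h : m ∣ m') {p : ℚ} (hp : MU m p) : MU m' p := by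
  obtain ⟨u, v, e, h1, h2, h3⟩ := hp
  exact ⟨u, v, e, h1.trans (pow_dvd_pow_of_dvd h e), h2.trans (pow_dvd_pow_of_dvd h e), h3⟩

/-- a modulus is a product of a divisor of a power of `m` and a number prime to `m` -/
theorem exists_split' (m : ℕ) (M : ℕ) (hM : 0 < M) :
    ∃ N e : ℕ, 0 < N ∧ N ∣ M ∧ Nat.Coprime N m ∧ M ∣ N * m ^ e := by
  induction M using Nat.strong_induction_on with
  | _ M ih =>
    by_cases hg : Nat.gcd M m = 1
    · exact ⟨M, 0, hM, dvd_rfl, hg, by simp⟩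
    · obtain ⟨q, hq⟩ := Nat.gcd_dvd_left M m
      have hg0 : 0 < Nat.gcd M m := Nat.gcd_pos_of_pos_left _ hM
      have hq0 : 0 < q := by
        rcases Nat.eq_zero_or_pos q with h | h
        · rw [h, mul_zero] at hq
          omega
        · exact h
      have hlt : q < M := by
        have h2 : 2 ≤ Nat.gcd M m := by omega
        calc q < 2 * q := by omega
          _ ≤ Nat.gcd M m * q := Nat.mul_le_mul_right _ h2
          _ = M := hq.symm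
      obtain ⟨N, e, h1, h0, h2, h3⟩ := ih q hlt hq0
      refine ⟨N, e + 1, h1, h0.trans ⟨Nat.gcd M m, by rw [mul_comm]; exact hq⟩, h2, ?_⟩
      have h4 : Nat.gcd M m * q ∣ m * (N * m ^ e) := mul_dvd_mul (Nat.gcd_dvd_right M m) h3
      rw [← hq] at h4
      refine h4.trans (dvd_of_eq ?_)
      ring

/-- cancel a bounded factor -/
theorem pow_dvd_cancel (hm : 0 < m) (d : ℕ) (hd : 0 < d) :
    ∃ E : ℕ, ∀ (j : ℕ) (X : ℤ), ((m ^ (j + E) : ℕ) : ℤ) ∣ (d : ℤ) * X → ((m ^ j : ℕ) : ℤ) ∣ X := by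
  obtain ⟨N, e, _, _, h2, h3⟩ := exists_split' m d hd
  refine ⟨e, fun j X hX => ?_⟩
  have h4 : ((m ^ (j + e) : ℕ) : ℤ) ∣ ((N : ℕ) : ℤ) * (((m ^ e : ℕ) : ℤ) * X) := by
    have h5 : (d : ℤ) * X ∣ ((N * m ^ e : ℕ) : ℤ) * X := mul_dvd_mul_right (Int.natCast_dvd_natCast.2 h3) X
    refine (hX.trans h5).trans (dvd_of_eq ?_)
    push_cast
    ring
  have hcp : IsCoprime ((m ^ (j + e) : ℕ) : ℤ) ((N : ℕ) : ℤ) :=
    Nat.isCoprime_iff_coprime.2 (Nat.Coprime.pow_left _ h2.symm)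
  have h5 := hcp.dvd_of_dvd_mul_left h4
  have h6 : ((m ^ e : ℕ) : ℤ) ≠ 0 := by exact_mod_cast (pow_pos hm e).ne'
  rw [pow_add, mul_comm (m ^ j), Nat.cast_mul] at h5
  exact (mul_dvd_mul_iff_left h6).1 h5

/-- an integer divisible by all powers of `m ≥ 2` vanishes -/
theorem eq_zero_of_pow_dvd (hm : 2 ≤ m) {t : ℤ} (h : ∀ j : ℕ, ((m ^ j : ℕ) : ℤ) ∣ t) : t = 0 := by
  by_contra hne
  have h1 := h t.natAbs
  have h2 := Int.natAbs_dvd_natAbs.2 h1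
  rw [Int.natAbs_natCast] at h2
  have h3 := Nat.le_of_dvd (Int.natAbs_pos.2 hne) h2
  have h4 : t.natAbs < m ^ t.natAbs := Nat.lt_pow_self (by omega)
  omega

end Pool.Agent.Lgo
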