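import Pool.Agent.Lgo.Near
import Pool.Agent.Lgo.Defs
import Pool.Agent.Lgo.MU
import Pool.Agent.Lgp.FinSl

/-!
# Slopes in finitely many classes modulo `m`-units, finite orbit in the `m`-adic integers
-/

namespace Pool.Agent.Lgo

open Pool.Agent.CTm Pool.Agent.Grm Pool.Agent.Lgp Filter Nat

/-- the orbit is finite in the `m`-adic integers -/
def FinRes (m : ℕ) (H : Subgroup (Equiv.Perm ℤ)) (y : ℕ → ℤ) : Prop :=
  ∃ (α : Type) (_ : Finite α) (f : Equiv.Perm ℤ → α), ∀ g ∈ H, ∀ g' ∈ H, f g = f g' →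
    ∀ j : ℕ, ∀ᶠ n in nh y, ((m ^ j : ℕ) : ℤ) ∣ g n - g' n

theorem finRes_of_finOrb {m : ℕ} {H : Subgroup (Equiv.Perm ℤ)} {y : ℕ → ℤ} (hy : Pro y)
    (h : FinOrb m H y) : FinRes m H y := by
  obtain ⟨k, z, hz⟩ := h
  have hk : Nonempty (Fin k) := by
    obtain ⟨c, _⟩ := hz 1 (one_mem _)
    exact ⟨c⟩
  choose! c hc using hz
  refine ⟨Fin k, inferInstance, c, fun g hg g' hg' h j => ?_⟩
  have e1 := (ev_iff hy).2 (hc g hg j)
  have e2 := (ev_iff hy).2 (hc g' hg' j)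
  rw [← h] at e2
  filter_upwards [e1, e2] with n h1 h2
  have e3 : g n - g' n = (g n - z (c g) j) - (g' n - z (c g) j) := by ring
  rw [e3]
  exact dvd_sub h1 h2

/-- slopes equal up to `m`-units; same point in the `m`-adic integers; congruent modulo slope times `L`, up to powers
of `m` -/
def UnRel (y : ℕ → ℤ) (m L : ℕ) (g g' : Equiv.Perm ℤ) : Prop :=
  ∃ a b : ℚ × ℚ, Germ y g a ∧ Germ y g' b ∧ MU m (a.1 / b.1) ∧
    (∀ j : ℕ, ∀ᶠ n in nh y, ((m ^ j : ℕ) : ℤ) ∣ g n - g' n) ∧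
    ∃ t : ℕ, ∀ᶠ n in nh y, ∃ k : ℤ, (m : ℚ) ^ t * (g n - g' n) = a.1 * L * k

variable {S : Set (Equiv.Perm ℤ)} {M : ℕ} {A : Finset (ℚ × ℚ)} {y : ℕ → ℤ}

theorem unRel_good (hd : Data S M A) (hy : Pro y) {m : ℕ} (hm : 2 ≤ m) {F : Finset ℚ}
    (hF : ∀ g ∈ Subgroup.closure S, ∀ a : ℚ × ℚ, Germ y g a → ∃ ρ ∈ F, MU m (a.1 / ρ)) {L P : ℕ}
    (hL : ∀ ρ ∈ F, ∃ t : ℤ, ρ * L = M * t) (hP0 : 0 < P)
    (hP : ∀ ρ ∈ F, ∃ t : ℤ, (P : ℚ) = ρ * L * t) (hfin : FinRes m (Subgroup.closure S) y) :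
    GoodRel S y (UnRel y m L) := by
  have hm0 : 0 < m := by omega
  have hpos : ∀ g ∈ Subgroup.closure S, ∀ a : ℚ × ℚ, Germ y g a → 0 < a.1 := by
    intro g hg a ha
    obtain ⟨b, hb, hb'⟩ := exists_germ hd hy hg
    rwa [← Germ.unique hy hb' ha]
  -- congruent modulo `M`
  have hcommon : ∀ g ∈ Subgroup.closure S, ∀ g' ∈ Subgroup.closure S, UnRel y m L g g' →
      ∀ᶠ n in nh y, (M : ℤ) ∣ g n - g' n := by
    rintro g hg g' _ ⟨a, b, ha, _, _, hj, t, ht⟩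
    obtain ⟨ρ, hρ, hu⟩ := hF g hg a ha
    obtain ⟨tρ, htρ⟩ := hL ρ hρ
    obtain ⟨t', z, hz⟩ := hu.int hm0
    have ha0 := hpos g hg a ha
    have hρ0 : ρ ≠ 0 := by
      rintro rfl
      exact hu.ne_zero hm0 (div_zero _)
    obtain ⟨N, e, _, hNM, hcop, hMN⟩ := exists_split' m M hd.pos
    filter_upwards [ht, hj e] with n ⟨k, hk⟩ hne
    have h1 : (M : ℤ) ∣ ((m ^ (t' + t) : ℕ) : ℤ) * (g n - g' n) := by
      refine ⟨z * tρ * k, ?_⟩
      have e1 : ((((m ^ (t' + t) : ℕ) : ℤ) * (g n - g' n) : ℤ) : ℚ) = (((M : ℤ) * (z * tρ * k) : ℤ) : ℚ) := by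
        push_cast
        rw [pow_add, mul_assoc, hk]
        have e2 : a.1 = a.1 / ρ * ρ := by field_simp
        rw [e2]
        linear_combination (ρ * L * k : ℚ) * hz + (z * k : ℚ) * htρ
      exact_mod_cast e1
    have h2 : ((N : ℕ) : ℤ) ∣ g n - g' n := by
      have hcp : IsCoprime ((N : ℕ) : ℤ) ((m ^ (t' + t) : ℕ) : ℤ) :=
        Nat.isCoprime_iff_coprime.2 (Nat.Coprime.pow_right _ hcop)
      exact hcp.dvd_of_dvd_mul_left ((Int.natCast_dvd_natCast.2 hNM).trans h1)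
    have hcp : IsCoprime ((N : ℕ) : ℤ) ((m ^ e : ℕ) : ℤ) :=
      Nat.isCoprime_iff_coprime.2 (Nat.Coprime.pow_right _ hcop)
    have h3 := hcp.mul_dvd h2 hne
    rw [← Nat.cast_mul] at h3
    exact (Int.natCast_dvd_natCast.2 hMN).trans h3
  constructor
  · intro g hg
    obtain ⟨a, ha0, ha⟩ := exists_germ hd hy hg
    refine ⟨a, a, ha, ha, ?_, fun j => Eventually.of_forall fun n => by simp, 0,
      Eventually.of_forall fun n => ⟨0, by simp⟩⟩
    rw [div_self ha0.ne']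
    exact MU.one m
  · rintro g hg g' hg' ⟨a, b, ha, hb, hab, hj, t, ht⟩
    obtain ⟨t', z, hz⟩ := hab.int hm0
    have hb0 := (hpos g' hg' b hb).ne'
    refine ⟨b, a, hb, ha, by rw [← inv_div]; exact hab.inv hm0, fun j => ?_, t' + t, ?_⟩
    · filter_upwards [hj j] with n hn
      rw [← neg_sub]
      exact hn.neg_right
    · filter_upwards [ht] with n ⟨k, hk⟩
      refine ⟨-(z * k), ?_⟩
      have e1 : (m : ℚ) ^ t' * a.1 = z * b.1 := by
        rw [← hz]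
        field_simp
      rw [pow_add]
      push_cast
      linear_combination -((m : ℚ) ^ t') * hk - (L * k : ℚ) * e1
  · rintro g hg g' hg' g'' hg'' ⟨a, b, ha, hb, hab, hj, t, ht⟩ ⟨b', c, hb', hc, hbc, hj', t', ht'⟩
    have := Germ.unique hy hb' hb
    subst this
    obtain ⟨t'', z, hz⟩ := (hab.inv hm0).int hm0
    have hb0 := (hpos g' hg' b' hb).ne'
    have ha0 := (hpos g hg a ha).ne'
    refine ⟨a, c, ha, hc, ?_, fun j => ?_, t + t' + t'', ?_⟩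
    · have e1 : a.1 / c.1 = a.1 / b'.1 * (b'.1 / c.1) := by field_simp
      rw [e1]
      exact hab.mul hbc
    · filter_upwards [hj j, hj' j] with n h1 h2
      have e1 : g n - g'' n = (g n - g' n) + (g' n - g'' n) := by ring
      rw [e1]
      exact dvd_add h1 h2
    · filter_upwards [ht, ht'] with n ⟨k, hk⟩ ⟨k', hk'⟩
      refine ⟨(m : ℤ) ^ (t' + t'') * k + (m : ℤ) ^ t * z * k', ?_⟩
      have e1 : (m : ℚ) ^ t'' * b'.1 = z * a.1 := by
        rw [← hz, inv_div]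
        field_simp
      push_cast
      rw [pow_add, pow_add, pow_add]
      linear_combination ((m : ℚ) ^ t' * (m : ℚ) ^ t'') * hk + ((m : ℚ) ^ t * (m : ℚ) ^ t'') * hk' +
        ((m : ℚ) ^ t * L * k') * e1
  · -- finitely many classes
    classical
    obtain ⟨α, hα, f, hf⟩ := hfin
    have hex : ∀ g ∈ Subgroup.closure S, ∃ r : ZMod P, ∃ i : ℕ, ∀ n : ℤ,
        ((i ! : ℕ) : ℤ) ∣ n - y i → ((g n : ℤ) : ZMod P) = r := fun g hg =>
      exists_resid hd hy hg P hP0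
    choose! r hr using hex
    have hex2 : ∀ g ∈ Subgroup.closure S, ∃ a : ℚ × ℚ, Germ y g a := fun g hg => by
      obtain ⟨a, _, ha⟩ := exists_germ hd hy hg
      exact ⟨a, ha⟩
    choose! a ha using hex2
    have hex3 : ∀ g ∈ Subgroup.closure S, ∃ ρ ∈ F, MU m ((a g).1 / ρ) := fun g hg => hF g hg _ (ha g hg)
    choose! ρ hρ hρu using hex3
    have : NeZero P := ⟨hP0.ne'⟩
    refine ⟨(Option F × ZMod P) × α, inferInstance, fun g =>
      ((if h : ρ g ∈ F then some ⟨ρ g, h⟩ else none, r g), f g), ?_⟩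
    intro g hg g' hg' h
    rw [Prod.mk.injEq, Prod.mk.injEq] at h
    obtain ⟨⟨h1, h2⟩, h0⟩ := h
    have m1 := hρ g hg
    have m2 := hρ g' hg'
    rw [dif_pos m1, dif_pos m2] at h1
    have h3 : ρ g = ρ g' := by simpa using h1
    have hu1 := hρu g hg
    have hu2 := hρu g' hg'
    have hρ0 : ρ g ≠ 0 := by
      intro h4
      rw [h4, div_zero] at hu1
      exact hu1.ne_zero hm0 rfl
    have ha0 := (hpos g hg _ (ha g hg)).ne'
    have ha0' := (hpos g' hg' _ (ha g' hg')).ne'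
    refine ⟨a g, a g', ha g hg, ha g' hg', ?_, fun j => hf g hg g' hg' h0 j, ?_⟩
    · rw [← h3] at hu2
      have e1 : (a g).1 / (a g').1 = ((a g).1 / ρ g) * ((a g').1 / ρ g)⁻¹ := by
        field_simp
      rw [e1]
      exact hu1.mul (hu2.inv hm0)
    · obtain ⟨t, z, hz⟩ := (hu1.inv hm0).int hm0
      obtain ⟨tρ, htρ⟩ := hP _ m1
      refine ⟨t, ?_⟩
      filter_upwards [(ev_iff hy).2 (hr g hg), (ev_iff hy).2 (hr g' hg')] with n e1 e2
      have e5 : ((P : ℕ) : ℤ) ∣ g n - g' n := by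
        rw [← ZMod.intCast_zmod_eq_zero_iff_dvd, Int.cast_sub, e1, e2, h2, sub_self]
      obtain ⟨q, hq⟩ := e5
      have hq' : ((g n : ℤ) : ℚ) - ((g' n : ℤ) : ℚ) = (P : ℚ) * q := by exact_mod_cast hq
      have e6 : (m : ℚ) ^ t * ρ g = z * (a g).1 := by
        rw [← hz, inv_div]
        field_simp
      refine ⟨z * tρ * q, ?_⟩
      rw [hq', htρ]
      push_cast
      linear_combination (L * tρ * q : ℚ) * e6
  · rintro s hs g hg g' hg' hR
    have hM := hcommon g hg g' hg' hR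
    obtain ⟨a, b, ha, hb, hab, hj, t, ht⟩ := hR
    obtain ⟨c, hcA, hi'⟩ := common_germ hd hy hg hg' hs ((ev_iff hy).1 hM)
    have hc := (ev_iff hy).2 hi'
    have hc0 : c.1 ≠ 0 := (hd.slope c hcA).ne'
    refine ⟨(c.1 * a.1, c.1 * a.2 + c.2), (c.1 * b.1, c.1 * b.2 + c.2), ?_, ?_, ?_, ?_, t, ?_⟩
    · rw [germ_iff hy] at ha ⊢
      filter_upwards [ha, hc] with n e1 e2
      rw [Equiv.Perm.mul_apply, e2.1, e1]
      ring
    · rw [germ_iff hy] at hb ⊢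
      filter_upwards [hb, hc] with n e1 e2
      rw [Equiv.Perm.mul_apply, e2.2, e1]
      ring
    · have e1 : c.1 * a.1 / (c.1 * b.1) = a.1 / b.1 := by
        rw [mul_div_mul_left _ _ hc0]
      show MU m (c.1 * a.1 / (c.1 * b.1))
      rw [e1]
      exact hab
    · intro j
      obtain ⟨E, hE⟩ := pow_dvd_cancel hm0 c.1.den c.1.den_pos
      filter_upwards [hj (j + E), hc] with n e1 e2
      refine hE j _ ?_
      obtain ⟨q, hq⟩ := e1
      refine ⟨c.1.num * q, ?_⟩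
      have h1 : c.1 * (c.1.den : ℚ) = c.1.num := Rat.mul_den_eq_num c.1
      have hq' : ((g n : ℤ) : ℚ) - ((g' n : ℤ) : ℚ) = ((m ^ (j + E) : ℕ) : ℚ) * q := by exact_mod_cast hq
      have e4 : (((c.1.den : ℤ) * ((s * g) n - (s * g') n) : ℤ) : ℚ) =
          ((((m ^ (j + E) : ℕ) : ℤ) * (c.1.num * q) : ℤ) : ℚ) := by
        rw [Equiv.Perm.mul_apply, Equiv.Perm.mul_apply]
        rw [Int.cast_mul, Int.cast_sub, e2.1, e2.2]
        push_cast at hq' ⊢
        linear_combination (c.1 * c.1.den) * hq' + ((m : ℚ) ^ (j + E) * q) * h1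
      exact_mod_cast e4
    · filter_upwards [ht, hc] with n ⟨k, hk⟩ e2
      refine ⟨k, ?_⟩
      rw [Equiv.Perm.mul_apply, Equiv.Perm.mul_apply, e2.1, e2.2]
      linear_combination c.1 * hk
  · rintro s hs g hg g' hg' hR
    have hM := hcommon g hg g' hg' hR
    obtain ⟨c, hcA, i, hi⟩ := common_germ hd hy hg hg' hs ((ev_iff hy).1 hM)
    exact ⟨c, ⟨i, fun n hn => (hi n hn).1⟩, ⟨i, fun n hn => (hi n hn).2⟩⟩
  · rintro h _ g _ ⟨_, _, _, _, _, hj, _⟩ τ hτ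
    have hτ' : ∀ᶠ n in nh y, ((h (g n) : ℤ) : ℚ) = 1 * (g n : ℤ) + τ := (ev_iff hy).2 hτ
    obtain ⟨n0, hn0⟩ := nh_exists hy hτ'
    have e2 : τ = ((h (g n0) - g n0 : ℤ) : ℚ) := by
      push_cast
      rw [hn0]
      ring
    have ht0 : h (g n0) - g n0 = 0 := by
      refine eq_zero_of_pow_dvd hm fun j => ?_
      obtain ⟨n, h1, h2⟩ := nh_exists hy (hτ'.and (hj j))
      have e3 : h (g n0) - g n0 = (h * g) n - g n := by
        have e4 : ((h (g n0) - g n0 : ℤ) : ℚ) = (((h * g) n - g n : ℤ) : ℚ) := by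
          rw [Equiv.Perm.mul_apply, Int.cast_sub (h (g n)), h1, ← e2]
          ring
        exact_mod_cast e4
      rw [e3]
      exact h2
    rw [e2, ht0]
    simp

theorem locAb_of_finRes {m : ℕ} (hm : 2 ≤ m) (S : Finset (Equiv.Perm ℤ)) (hS : ∀ s ∈ S, s ∈ CT)
    (hy : Pro y) (hU : UnitSlopes m (Subgroup.closure (S : Set (Equiv.Perm ℤ))) y)
    (h : FinRes m (Subgroup.closure (S : Set (Equiv.Perm ℤ))) y) :
    LocAb (Subgroup.closure (S : Set (Equiv.Perm ℤ))) y := by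
  classical
  obtain ⟨M, A, hd⟩ := Pool.Agent.Grm.exists_data S hS
  obtain ⟨F, hF⟩ := hU
  have hm0 : 0 < m := by omega
  obtain ⟨L, P, _, hP0, hL, hP⟩ := exists_mult (F.filter fun σ => 0 < σ)
    (fun σ hσ => (Finset.mem_filter.1 hσ).2) M hd.pos
  refine (unRel_good hd hy hm (F := F.filter fun σ => 0 < σ) ?_ hL hP0 hP h).locAb hy
  intro g hg a ha
  obtain ⟨ρ, hρ, u, v, e, hu, hv, huv⟩ := hF g hg a ha
  have hu0 : (0 : ℚ) < u := by exact_mod_cast Nat.pos_of_ne_zero (ne_zero_of_dvd_pow hm0 hu)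
  have hv0 : (0 : ℚ) < v := by exact_mod_cast Nat.pos_of_ne_zero (ne_zero_of_dvd_pow hm0 hv)
  have ha0 : 0 < a.1 := by
    obtain ⟨b, hb, hb'⟩ := exists_germ hd hy hg
    rwa [← Germ.unique hy hb' ha]
  have hρ0 : 0 < ρ := by
    have h1 : (0 : ℚ) < u * ρ := by
      rw [← huv]
      exact mul_pos hv0 ha0
    exact (mul_pos_iff_of_pos_left hu0).1 h1
  refine ⟨ρ, Finset.mem_filter.2 ⟨hρ, hρ0⟩, u, v, e, hu, hv, ?_⟩
  rw [mul_div_assoc', huv]
  field_simp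

end Pool.Agent.Lgo
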