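import Pool.Agent.Lgo.Nest
import Pool.Agent.Lgo.Unit

/-!
# Rational centres
-/

namespace Pool.Agent.Lgo

open Pool.Agent.CTm Pool.Agent.Grm Pool.Agent.Lgp Filter Nat

/-- the point `g y` is equal to the rational `a` in the `m`-adic numbers -/
def Cen (m : ℕ) (y : ℕ → ℤ) (g : Equiv.Perm ℤ) (a : ℚ) : Prop :=
  ∃ E : ℕ, 0 < E ∧ ∀ i : ℕ, ∀ᶠ n in nh y, ∃ k : ℤ, (E : ℚ) * (((g n : ℤ) : ℚ) - a) = (m : ℚ) ^ i * k

variable {S : Set (Equiv.Perm ℤ)} {M : ℕ} {A : Finset (ℚ × ℚ)} {y : ℕ → ℤ} {m : ℕ}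

theorem Cen.unique (hy : Pro y) (hm : 2 ≤ m) {g : Equiv.Perm ℤ} {a a' : ℚ} (h : Cen m y g a)
    (h' : Cen m y g a') : a = a' := by
  obtain ⟨E, hE, h1⟩ := h
  obtain ⟨E', hE', h1'⟩ := h'
  have hEq : (E : ℚ) ≠ 0 := by exact_mod_cast hE.ne'
  have hEq' : (E' : ℚ) ≠ 0 := by exact_mod_cast hE'.ne'
  have key : ∀ i : ℕ, ∃ t : ℤ, (E : ℚ) * E' * (a' - a) = (m : ℚ) ^ i * t := by
    intro i
    obtain ⟨n, ⟨k, hk⟩, ⟨k', hk'⟩⟩ := nh_exists hy ((h1 i).and (h1' i))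
    refine ⟨E' * k - E * k', ?_⟩
    push_cast
    linear_combination (E' : ℚ) * hk - (E : ℚ) * hk'
  obtain ⟨t, ht⟩ := key 0
  have ht0 : t = 0 := by
    refine eq_zero_of_pow_dvd hm fun j => ?_
    obtain ⟨t', ht'⟩ := key j
    refine ⟨t', ?_⟩
    have e1 : (t : ℚ) = (m : ℚ) ^ j * t' := by
      rw [← ht', ht]
      simp
    exact_mod_cast e1
  rw [ht0] at ht
  simp only [Int.cast_zero, mul_zero] at ht
  have e2 : a' - a = 0 := by
    rcases mul_eq_zero.1 ht with h2 | h2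
    · exact absurd h2 (mul_ne_zero hEq hEq')
    · exact h2
  linarith

theorem Cen.step {g h : Equiv.Perm ℤ} {a : ℚ} (hg : Cen m y g a) {c : ℚ × ℚ}
    (hc : ∀ᶠ n in nh y, ((h (g n) : ℤ) : ℚ) = c.1 * (g n : ℤ) + c.2) :
    Cen m y (h * g) (c.1 * a + c.2) := by
  obtain ⟨E, hE, h1⟩ := hg
  refine ⟨E * c.1.den, Nat.mul_pos hE c.1.den_pos, fun i => ?_⟩
  filter_upwards [h1 i, hc] with n ⟨k, hk⟩ hn
  refine ⟨c.1.num * k, ?_⟩
  have h2 : c.1 * (c.1.den : ℚ) = c.1.num := Rat.mul_den_eq_num c.1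
  rw [Equiv.Perm.mul_apply, hn]
  push_cast
  linear_combination (c.1 * c.1.den) * hk + ((m : ℚ) ^ i * k) * h2

theorem Cen.back {g c : Equiv.Perm ℤ} {z : ℚ} (hg : Cen m y (c * g) z) {c' : ℚ × ℚ} (hc0 : c'.1 ≠ 0)
    (hc : ∀ᶠ n in nh y, ((c (g n) : ℤ) : ℚ) = c'.1 * (g n : ℤ) + c'.2) :
    Cen m y g ((z - c'.2) / c'.1) := by
  have h1 := Cen.step (h := c⁻¹) (c := (1 / c'.1, -c'.2 / c'.1)) hg (by
    filter_upwards [hc] with n hn
    have e1 : c⁻¹ ((c * g) n) = g n := c.symm_apply_apply _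
    rw [e1, Equiv.Perm.mul_apply, hn]
    field_simp
    ring)
  rw [inv_mul_cancel_left] at h1
  have e1 : ((1 / c'.1, -c'.2 / c'.1) : ℚ × ℚ).1 * z + ((1 / c'.1, -c'.2 / c'.1) : ℚ × ℚ).2 =
      (z - c'.2) / c'.1 := by
    simp only
    field_simp
    ring
  rw [e1] at h1
  exact h1

theorem Cen.of_dvd {m' : ℕ} (h : m' ∣ m) {g : Equiv.Perm ℤ} {a : ℚ} (hg : Cen m y g a) :
    Cen m' y g a := by
  obtain ⟨E, hE, h1⟩ := hg
  obtain ⟨q, rfl⟩ := h
  refine ⟨E, hE, fun i => ?_⟩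
  filter_upwards [h1 i] with n ⟨k, hk⟩
  refine ⟨(q : ℤ) ^ i * k, ?_⟩
  rw [hk]
  push_cast
  ring

/-- points with the same centre -/
theorem Cen.congr (hm : 0 < m) {g g' : Equiv.Perm ℤ} {a : ℚ} (h : Cen m y g a) (h' : Cen m y g' a) (j : ℕ) :
    ∀ᶠ n in nh y, ((m ^ j : ℕ) : ℤ) ∣ g n - g' n := by
  obtain ⟨E, hE, h1⟩ := h
  obtain ⟨E', hE', h1'⟩ := h'
  obtain ⟨e, he⟩ := pow_dvd_cancel hm (E * E') (Nat.mul_pos hE hE')
  filter_upwards [h1 (j + e), h1' (j + e)] with n ⟨k, hk⟩ ⟨k', hk'⟩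
  refine he j _ ⟨E' * k - E * k', ?_⟩
  have e1 : ((((E * E' : ℕ) : ℤ) * (g n - g' n) : ℤ) : ℚ) =
      ((((m ^ (j + e) : ℕ) : ℤ) * (E' * k - E * k') : ℤ) : ℚ) := by
    push_cast
    linear_combination (E' : ℚ) * hk - (E : ℚ) * hk'
  exact_mod_cast e1

theorem prime_not_dvd {p i : ℕ} (hp : p.Prime) {u v X X' : ℤ} (huv : IsCoprime u v)
    (h : v * X' = u * X) (h1 : ((p ^ i : ℕ) : ℤ) ∣ X' - X) (h2 : ¬ ((p ^ i : ℕ) : ℤ) ∣ X) :
    ¬ (p : ℤ) ∣ u := by
  intro hpu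
  have hpv : ¬ (p : ℤ) ∣ v := by
    intro hpv
    obtain ⟨s, t, hst⟩ := huv
    have h3 : (p : ℤ) ∣ 1 := by
      rw [← hst]
      exact dvd_add (hpu.mul_left _) (hpv.mul_left _)
    exact hp.one_lt.ne' (by exact_mod_cast Int.eq_one_of_dvd_one (by positivity) h3)
  have key : ∀ e : ℕ, e ≤ i → ((p ^ e : ℕ) : ℤ) ∣ X := by
    intro e
    induction e with
    | zero => intro _; simp
    | succ e ih =>
      intro he
      have h3 := ih (by omega)
      have h4 : ((p ^ (e + 1) : ℕ) : ℤ) ∣ v * X' := by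
        rw [h, Nat.pow_succ, mul_comm (p ^ e) p, Nat.cast_mul]
        exact mul_dvd_mul hpu h3
      have hcp : IsCoprime ((p ^ (e + 1) : ℕ) : ℤ) v := by
        rw [Nat.cast_pow]
        exact ((Nat.prime_iff_prime_int.1 hp).coprime_iff_not_dvd.2 hpv).pow_left
      have h5 := hcp.dvd_of_dvd_mul_left h4
      have h6 : ((p ^ (e + 1) : ℕ) : ℤ) ∣ X' - X :=
        (Int.natCast_dvd_natCast.2 (pow_dvd_pow p he)).trans h1
      have h7 : X = X' - (X' - X) := by ring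
      rw [h7]
      exact dvd_sub h5 h6
  exact h2 (key i le_rfl)

theorem dvd_pow_of_primes {u : ℕ} (hu : 0 < u) (h : ∀ p : ℕ, p.Prime → p ∣ u → p ∣ m) :
    ∃ e, u ∣ m ^ e := by
  obtain ⟨N, e, _, hN, hcop, huN⟩ := exists_split' m u hu
  refine ⟨e, ?_⟩
  have h1 : N = 1 := by
    by_contra hne
    obtain ⟨p, hp, hpN⟩ := Nat.exists_prime_and_dvd hne
    have h2 := h p hp (hpN.trans hN)
    have h3 : p ∣ 1 := by
      rw [← Nat.Coprime.gcd_eq_one hcop]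
      exact Nat.dvd_gcd hpN h2
    exact hp.one_lt.ne' (Nat.dvd_one.1 h3)
  rw [h1, one_mul] at huN
  exact huN

theorem mu_of_primes {D : ℕ} {σ : ℚ} (hσ : 0 < σ) (h : MU D σ)
    (h1 : ∀ p : ℕ, p.Prime → p ∣ D → ¬ p ∣ m → ¬ (p : ℤ) ∣ σ.num ∧ ¬ (p : ℤ) ∣ (σ.den : ℤ)) : MU m σ := by
  obtain ⟨u, v, e, hu, hv, huv⟩ := h
  have hnum : 0 < σ.num := Rat.num_pos.2 hσ
  have hnat : ((σ.num.natAbs : ℕ) : ℤ) = σ.num := Int.natAbs_of_nonneg hnum.le
  have hnatq : ((σ.num.natAbs : ℕ) : ℚ) = σ.num := by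
    have h4 : (((σ.num.natAbs : ℕ) : ℤ) : ℚ) = σ.num := congrArg (fun z : ℤ => (z : ℚ)) hnat
    simpa using h4
  have hmd : σ * (σ.den : ℚ) = σ.num := Rat.mul_den_eq_num σ
  have hcross : v * σ.num.natAbs = u * σ.den := by
    have h2 : ((v * σ.num.natAbs : ℕ) : ℚ) = ((u * σ.den : ℕ) : ℚ) := by
      push_cast
      rw [hnatq, ← hmd, ← huv]
      ring
    exact_mod_cast h2
  have hcop : Nat.Coprime σ.num.natAbs σ.den := σ.reduced
  have hnu : σ.num.natAbs ∣ u := by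
    refine hcop.dvd_of_dvd_mul_right ?_
    rw [← hcross]
    exact Dvd.intro_left _ rfl
  have hdv : σ.den ∣ v := by
    refine hcop.symm.dvd_of_dvd_mul_right ?_
    rw [hcross]
    exact Dvd.intro_left _ rfl
  obtain ⟨e1, he1⟩ := dvd_pow_of_primes (m := m) (u := σ.num.natAbs) (Int.natAbs_pos.2 hnum.ne') (by
    intro p hp hpn
    by_contra hpm
    have hpD : p ∣ D := hp.dvd_of_dvd_pow ((hpn.trans hnu).trans hu)
    refine (h1 p hp hpD hpm).1 ?_
    rw [← hnat]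
    exact Int.natCast_dvd_natCast.2 hpn)
  obtain ⟨e2, he2⟩ := dvd_pow_of_primes (m := m) (u := σ.den) σ.den_pos (by
    intro p hp hpn
    by_contra hpm
    have hpD : p ∣ D := hp.dvd_of_dvd_pow ((hpn.trans hdv).trans hv)
    exact (h1 p hp hpD hpm).2 (Int.natCast_dvd_natCast.2 hpn))
  refine ⟨σ.num.natAbs, σ.den, e1 + e2, he1.trans (pow_dvd_pow m (Nat.le_add_right _ _)),
    he2.trans (pow_dvd_pow m (Nat.le_add_left _ _)), ?_⟩
  rw [hnatq, mul_comm]
  exact hmd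

/-- the affine pieces of the elements of a finite subset of `H` -/
theorem piece_at {C : Finset (Equiv.Perm ℤ)} {M' : ℕ} {A' : Finset (ℚ × ℚ)} (hd : Data S M A)
    (hdC : Data (C : Set (Equiv.Perm ℤ)) M' A') (hy : Pro y) {g c : Equiv.Perm ℤ}
    (hg : g ∈ Subgroup.closure S) (hc : c ∈ C) : ∃ r : ℤ, At y g r M' ∧ ∃ c' ∈ A', c'.1 ≠ 0 ∧
      ∀ n : ℤ, (M' : ℤ) ∣ n - r → ((c n : ℤ) : ℚ) = c'.1 * n + c'.2 := by
  obtain ⟨r, hr⟩ := at_exists hd hy hg M' hdC.pos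
  obtain ⟨c', hc', h1⟩ := hdC.aff c (Or.inl hc) r
  exact ⟨r, hr, c', hc', (hdC.slope c' hc').ne', h1⟩

theorem unit_of_rational {S : Finset (Equiv.Perm ℤ)} (hS : ∀ s ∈ S, s ∈ CT)
    (hd : Data (S : Set (Equiv.Perm ℤ)) M A) (hy : Pro y)
    (hsyn : Synd (Subgroup.closure (S : Set (Equiv.Perm ℤ))) y) {L : ℕ} {b τ : ℤ} {β : ℕ}
    (hL0 : 0 < L) (hβ : 2 ≤ β) {g0 : Equiv.Perm ℤ} (hg0 : g0 ∈ Subgroup.closure (S : Set (Equiv.Perm ℤ)))
    (hg0b : At y g0 b L)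
    (hrat : ∀ h ∈ Subgroup.closure (S : Set (Equiv.Perm ℤ)), At y h b L → ∀ i : ℕ,
      ∀ᶠ n in nh y, ((β ^ i : ℕ) : ℤ) ∣ (β - 1) * h n + τ) :
    ∃ m : ℕ, 2 ≤ m ∧ UnitSlopes m (Subgroup.closure (S : Set (Equiv.Perm ℤ))) y ∧
      FinRes m (Subgroup.closure (S : Set (Equiv.Perm ℤ))) y := by
  classical
  set H := Subgroup.closure (S : Set (Equiv.Perm ℤ)) with hH
  have hHCT : ∀ h ∈ H, h ∈ CT := by
    have h1 : H ≤ CT := by
      rw [hH, Subgroup.closure_le]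
      exact hS
    exact fun h hh => h1 hh
  have hL0' : (0 : ℤ) < L := by exact_mod_cast hL0
  have hβq : (1 : ℚ) < β := by exact_mod_cast hβ
  -- the centre in the class
  set z : ℚ := -(τ : ℚ) / (β - 1) with hz
  have hzc : ∀ h ∈ H, At y h b L → Cen β y h z := by
    intro h hh hhb
    refine ⟨β - 1, by omega, fun i => ?_⟩
    filter_upwards [hrat h hh hhb i] with n ⟨k, hk⟩
    refine ⟨k, ?_⟩
    have e1 : ((β - 1 : ℕ) : ℚ) = (β : ℚ) - 1 := by
      rw [Nat.cast_sub (by omega)]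
      simp
    have e2 : (((β : ℤ) - 1) * h n + τ : ℚ) = ((β : ℚ) ^ i) * k := by exact_mod_cast hk
    have e3 : (β : ℚ) - 1 ≠ 0 := by linarith
    rw [e1, hz, mul_sub, mul_div_cancel₀ _ e3]
    push_cast at e2
    linear_combination e2
  -- the finite set of the centres
  obtain ⟨C, hC1, hC2⟩ := hsyn _ hg0 _ _ hg0b
  obtain ⟨M', A', hdC⟩ := Pool.Agent.Grm.exists_data C fun c hc => hHCT c (hC1 c hc)
  set Z : Finset ℚ := A'.image fun c' => (z - c'.2) / c'.1 with hZ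
  have hcen : ∀ g ∈ H, ∃ a ∈ Z, Cen β y g a := by
    intro g hg
    obtain ⟨c, hc, hcb⟩ := hC2 g hg
    obtain ⟨r, hr, c', hc', hc0, h1⟩ := piece_at hd hdC hy hg hc
    refine ⟨(z - c'.2) / c'.1, Finset.mem_image.2 ⟨c', hc', rfl⟩, ?_⟩
    refine Cen.back (hzc _ (mul_mem (hC1 c hc) hg) hcb) hc0 ?_
    filter_upwards [hr] with n hn
    exact h1 _ hn
  choose! cen hcenZ hcen using hcen
  set a1 := cen 1 with ha1
  -- the centre is locally constant
  obtain ⟨Qc, hQc0, hQc⟩ : ∃ Qc : ℕ, 0 < Qc ∧ ∀ g ∈ H, (∀ᶠ n in nh y, (Qc : ℤ) ∣ g n - n) →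
      cen g = a1 := by
    obtain ⟨c, hc, hcb⟩ := hC2 1 (one_mem _)
    obtain ⟨r, hr, c', hc', hc0, h1⟩ := piece_at hd hdC hy (one_mem _) hc
    refine ⟨M' * (c'.1.den * L), Nat.mul_pos hdC.pos (Nat.mul_pos c'.1.den_pos hL0), fun g hg hgn => ?_⟩
    have h2 : Cen β y 1 ((z - c'.2) / c'.1) := by
      refine Cen.back (hzc _ (mul_mem (hC1 c hc) (one_mem _)) hcb) hc0 ?_
      filter_upwards [hr] with n hn
      exact h1 _ hn
    have h3 : At y g r M' := by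
      filter_upwards [hr, hgn] with n e1 e2
      have e3 : g n - r = (g n - n) + ((1 : Equiv.Perm ℤ) n - r) := by
        rw [Equiv.Perm.one_apply]
        ring
      rw [e3]
      exact dvd_add ((Int.natCast_dvd_natCast.2 (Dvd.intro _ rfl)).trans e2) e1
    have h4 : At y (c * g) b L := by
      filter_upwards [h3, hr, hgn, hcb] with n e1 e2 e3 e4
      have e5 := h1 _ e1
      have e6 := h1 _ e2
      obtain ⟨q, hq⟩ := e3
      have h7 : c'.1 * (c'.1.den : ℚ) = c'.1.num := Rat.mul_den_eq_num c'.1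
      have e7 : (L : ℤ) ∣ c (g n) - c n := by
        refine ⟨c'.1.num * M' * q, ?_⟩
        have e8 : ((c (g n) - c n : ℤ) : ℚ) = (((L : ℤ) * (c'.1.num * M' * q) : ℤ) : ℚ) := by
          have hq' : ((g n : ℤ) : ℚ) - n = ((M' * (c'.1.den * L) : ℕ) : ℚ) * q := by exact_mod_cast hq
          rw [Equiv.Perm.one_apply] at e6
          push_cast at hq' ⊢
          rw [e5, e6]
          linear_combination c'.1 * hq' + ((M' : ℚ) * L * q) * h7
        exact_mod_cast e8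
      have e8 : (c * g) n - b = (c (g n) - c n) + ((c * 1) n - b) := by
        rw [Equiv.Perm.mul_apply, Equiv.Perm.mul_apply, Equiv.Perm.one_apply]
        ring
      rw [e8]
      exact dvd_add e7 e4
    have h5 : Cen β y g ((z - c'.2) / c'.1) := by
      refine Cen.back (hzc _ (mul_mem (hC1 c hc) hg) h4) hc0 ?_
      filter_upwards [h3] with n hn
      exact h1 _ hn
    rw [Cen.unique hy hβ (hcen g hg) h5, ha1, Cen.unique hy hβ (hcen 1 (one_mem _)) h2]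
  -- the germs are determined by the slopes and the centres
  have hgerm : ∀ g ∈ H, ∀ a : ℚ × ℚ, Germ y g a → a.1 * a1 + a.2 = cen g := by
    intro g hg a ha
    have h1 : Cen β y (g * 1) (a.1 * a1 + a.2) := by
      refine Cen.step (hcen 1 (one_mem _)) ?_
      filter_upwards [(germ_iff hy).1 ha] with n hn
      rw [Equiv.Perm.one_apply]
      exact hn
    rw [mul_one] at h1
    exact Cen.unique hy hβ h1 (hcen g hg)
  have hmove : ∀ p : ℕ, Cen p y 1 a1 → ∀ g ∈ H, Cen p y g (cen g) := by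
    intro p hp g hg
    obtain ⟨a, _, ha⟩ := exists_germ hd hy hg
    rw [← hgerm g hg a ha]
    have h1 : Cen p y (g * 1) (a.1 * a1 + a.2) := by
      refine Cen.step hp ?_
      filter_upwards [(germ_iff hy).1 ha] with n hn
      rw [Equiv.Perm.one_apply]
      exact hn
    rwa [mul_one] at h1
  -- the primes
  obtain ⟨D, hD0, hD⟩ := exists_unitBase hd
  set Pr : Finset ℕ := (D * β).primeFactors with hPr
  set Ph : Finset ℕ := Pr.filter fun p => Cen p y 1 a1 with hPh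
  set m : ℕ := ∏ p ∈ Ph, p with hm
  have hPhp : ∀ p ∈ Ph, p.Prime := fun p hp => Nat.prime_of_mem_primeFactors (Finset.mem_filter.1 hp).1
  have hm0 : 0 < m := Finset.prod_pos fun p hp => (hPhp p hp).pos
  have hβPh : β.minFac ∈ Ph := by
    have h1 : β.minFac.Prime := Nat.minFac_prime (by omega)
    refine Finset.mem_filter.2 ⟨?_, (hcen 1 (one_mem _)).of_dvd (Nat.minFac_dvd β)⟩
    exact Nat.mem_primeFactors.2 ⟨h1, (Nat.minFac_dvd β).mul_left D, by positivity⟩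
  have hm2 : 2 ≤ m := by
    have h1 : β.minFac ∣ m := Finset.dvd_prod_of_mem (fun p => p) hβPh
    exact ((hPhp _ hβPh).two_le).trans (Nat.le_of_dvd hm0 h1)
  refine ⟨m, hm2, ?_, ?_⟩
  · -- slopes
    set X : ℤ → ℤ := fun n => a1.den * n - a1.num with hX
    have ha1q : a1 * (a1.den : ℚ) = a1.num := Rat.mul_den_eq_num a1
    have hXq : ∀ n : ℤ, ((X n : ℤ) : ℚ) = a1.den * (n - a1) := by
      intro n
      rw [hX]
      push_cast
      linear_combination ha1q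
    -- the primes outside
    have hout : ∀ p ∈ Pr \ Ph, ∃ i : ℕ, ∀ᶠ n in nh y, ¬ ((p ^ i : ℕ) : ℤ) ∣ X n := by
      intro p hp
      obtain ⟨hp1, hp2⟩ := Finset.mem_sdiff.1 hp
      have hpp := Nat.prime_of_mem_primeFactors hp1
      by_contra hcon
      push Not at hcon
      refine hp2 (Finset.mem_filter.2 ⟨hp1, a1.den, a1.den_pos, fun i => ?_⟩)
      have h1 := hcon i
      obtain ⟨r, hr⟩ := at_exists hd hy (one_mem _) (p ^ i) (pow_pos hpp.pos i)
      obtain ⟨n1, h2, h3⟩ := (h1.and_eventually hr).exists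
      filter_upwards [hr] with n hn
      have h4 : ((p ^ i : ℕ) : ℤ) ∣ X n := by
        have e1 : X n = X n1 + a1.den * (((1 : Equiv.Perm ℤ) n - r) - ((1 : Equiv.Perm ℤ) n1 - r)) := by
          rw [hX]
          simp only [Equiv.Perm.one_apply]
          ring
        rw [e1]
        exact dvd_add h2 (Dvd.dvd.mul_left (dvd_sub hn h3) _)
      obtain ⟨k, hk⟩ := h4
      refine ⟨k, ?_⟩
      rw [Equiv.Perm.one_apply, ← hXq, hk]
      push_cast
      ring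
    choose! ip hip using hout
    set Q : ℕ := Qc * ∏ p ∈ Pr \ Ph, p ^ ip p with hQ
    have hQ0 : 0 < Q := Nat.mul_pos hQc0 (Finset.prod_pos fun p hp =>
      pow_pos (Nat.prime_of_mem_primeFactors (Finset.mem_sdiff.1 hp).1).pos _)
    obtain ⟨r, hr⟩ := at_exists hd hy (one_mem _) Q hQ0
    obtain ⟨C', hC1', hC2'⟩ := hsyn _ (one_mem _) _ _ hr
    obtain ⟨M'', A'', hdC'⟩ := Pool.Agent.Grm.exists_data C' fun c hc => hHCT c (hC1' c hc)
    refine ⟨A''.image fun c' => 1 / c'.1, fun g hg a ha => ?_⟩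
    obtain ⟨c, hc, hcr⟩ := hC2' g hg
    obtain ⟨r', hr', c', hc', hc0, h1⟩ := piece_at hd hdC' hy hg hc
    refine ⟨1 / c'.1, Finset.mem_image.2 ⟨c', hc', rfl⟩, ?_⟩
    have hcg : c * g ∈ H := mul_mem (hC1' c hc) hg
    have hcgn : ∀ᶠ n in nh y, (Q : ℤ) ∣ (c * g) n - n := by
      filter_upwards [hcr, hr] with n e1 e2
      have e3 : (c * g) n - n = ((c * g) n - r) - ((1 : Equiv.Perm ℤ) n - r) := by
        rw [Equiv.Perm.one_apply]
        ring
      rw [e3]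
      exact dvd_sub e1 e2
    obtain ⟨σ, hσ0, hσ1, hσ⟩ := germ_mu hd hy hD hcg
    have hcc : cen (c * g) = a1 := hQc _ hcg (by
      filter_upwards [hcgn] with n hn
      exact (Int.natCast_dvd_natCast.2 (Dvd.intro _ rfl)).trans hn)
    have hσa := hgerm _ hcg _ hσ
    rw [hcc] at hσa
    -- the slope of `c g`
    have hσm : MU m σ.1 := by
      refine mu_of_primes hσ0 hσ1 fun p hp hpD hpm => ?_
      have hpPr : p ∈ Pr \ Ph := by
        refine Finset.mem_sdiff.2 ⟨Nat.mem_primeFactors.2 ⟨hp, hpD.mul_right β, by positivity⟩, fun h2 => hpm ?_⟩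
        exact Finset.dvd_prod_of_mem (fun p => p) h2
      obtain ⟨n, e1, e2, e3⟩ := nh_exists hy ((hip p hpPr).and (hcgn.and ((germ_iff hy).1 hσ)))
      have hpQ : p ^ ip p ∣ Q := by
        rw [hQ]
        exact (Finset.dvd_prod_of_mem (fun p => p ^ ip p) hpPr).mul_left Qc
      have e4 : ((p ^ ip p : ℕ) : ℤ) ∣ X ((c * g) n) - X n := by
        have e5 : X ((c * g) n) - X n = a1.den * ((c * g) n - n) := by
          rw [hX]
          ring
        rw [e5]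
        exact Dvd.dvd.mul_left ((Int.natCast_dvd_natCast.2 hpQ).trans e2) _
      have hmd : σ.1 * (σ.1.den : ℚ) = σ.1.num := Rat.mul_den_eq_num σ.1
      have e5 : (σ.1.den : ℤ) * X ((c * g) n) = σ.1.num * X n := by
        have e6 : (((σ.1.den : ℤ) * X ((c * g) n) : ℤ) : ℚ) = ((σ.1.num * X n : ℤ) : ℚ) := by
          rw [Int.cast_mul, Int.cast_mul, hXq, hXq, e3]
          push_cast
          linear_combination ((a1.den : ℚ) * (n - a1)) * hmd + ((σ.1.den : ℚ) * a1.den) * hσa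
        exact_mod_cast e6
      have hcop : IsCoprime σ.1.num (σ.1.den : ℤ) := by
        rw [Int.isCoprime_iff_gcd_eq_one]
        exact σ.1.reduced
      refine ⟨prime_not_dvd hp hcop e5 e4 e1, ?_⟩
      refine prime_not_dvd hp hcop.symm e5.symm (i := ip p) ?_ ?_
      · rw [← neg_sub]
        exact e4.neg_right
      · intro e6
        refine e1 ?_
        have e7 : X n = X ((c * g) n) - (X ((c * g) n) - X n) := by ring
        rw [e7]
        exact dvd_sub e6 e4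
    have hcomp : σ.1 = c'.1 * a.1 := by
      have h2 : Germ y (c * g) (c'.1 * a.1, c'.1 * a.2 + c'.2) := by
        rw [germ_iff hy] at ha ⊢
        filter_upwards [ha, hr'] with n e1 e2
        rw [Equiv.Perm.mul_apply, h1 _ e2, e1]
        ring
      rw [Germ.unique hy hσ h2]
    obtain ⟨u, v, e, hu, hv, huv⟩ := hσm
    refine ⟨u, v, e, hu, hv, ?_⟩
    rw [← huv, hcomp]
    field_simp
  · -- residues
    refine ⟨Option Z, inferInstance, fun g => if h : cen g ∈ Z then some ⟨cen g, h⟩ else none, ?_⟩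
    intro g hg g' hg' h j
    dsimp only at h
    rw [dif_pos (hcenZ g hg), dif_pos (hcenZ g' hg')] at h
    have h1 : cen g = cen g' := by simpa using h
    have h2 : ∀ p ∈ Ph, ∀ᶠ n in nh y, ((p ^ j : ℕ) : ℤ) ∣ g n - g' n := by
      intro p hp
      have h3 := (Finset.mem_filter.1 hp).2
      have h4 := hmove p h3 g hg
      have h5 := hmove p h3 g' hg'
      rw [← h1] at h5
      exact Cen.congr (hPhp p hp).pos h4 h5 j
    filter_upwards [(Filter.eventually_all_finset Ph).2 h2] with n hn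
    have e1 : ((m ^ j : ℕ) : ℤ) = ∏ p ∈ Ph, ((p ^ j : ℕ) : ℤ) := by
      rw [hm, ← Finset.prod_pow]
      push_cast
      rfl
    rw [e1]
    refine Finset.prod_dvd_of_coprime ?_ hn
    intro p hp q hq hpq
    refine Nat.isCoprime_iff_coprime.2 (Nat.Coprime.pow _ _ ?_)
    exact (Nat.coprime_primes (hPhp p hp) (hPhp q hq)).2 hpq

theorem locAb_of_bigImage (S : Finset (Equiv.Perm ℤ)) (hS : ∀ s ∈ S, s ∈ CT)
    (hexp : NoExp (S : Set (Equiv.Perm ℤ))) (hy : Pro y)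
    (hsyn : Synd (Subgroup.closure (S : Set (Equiv.Perm ℤ))) y)
    (h : BigImage (Subgroup.closure (S : Set (Equiv.Perm ℤ))) y) :
    LocAb (Subgroup.closure (S : Set (Equiv.Perm ℤ))) y := by
  obtain ⟨M, A, hd⟩ := Pool.Agent.Grm.exists_data S hS
  obtain ⟨L, b, τ, β, T, g, hL0, hβ, hT, hg, hgb, hT1, hT2⟩ := exists_selfMap hexp hd hy hsyn h
  obtain ⟨m, hm, h1, h2⟩ := unit_of_rational hS hd hy hsyn hL0 hβ hg hgb fun h hh hhb i =>
    rational_coordinate hexp hd hy hsyn hL0 hβ hT hT1 hT2 hh hhb i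
  exact locAb_of_finRes hm S hS hy h1 h2

/-- (BIG) for almost periodic points -/
theorem locAb_of_bigImage_almPer (S : Finset (Equiv.Perm ℤ)) (hS : ∀ s ∈ S, s ∈ CT)
    (hexp : NoExp (S : Set (Equiv.Perm ℤ))) (hy : Pro y)
    (hap : ∀ j : ℕ, ∃ F : Finset (Equiv.Perm ℤ),
      (∀ t ∈ F, t ∈ Subgroup.closure (S : Set (Equiv.Perm ℤ))) ∧
      ∀ g ∈ Subgroup.closure (S : Set (Equiv.Perm ℤ)), ∃ t ∈ F, ∃ i : ℕ, ∀ n : ℤ,
        ((i ! : ℕ) : ℤ) ∣ n - y i → ((j ! : ℕ) : ℤ) ∣ t (g n) - y j)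
    (h : BigImage (Subgroup.closure (S : Set (Equiv.Perm ℤ))) y) :
    LocAb (Subgroup.closure (S : Set (Equiv.Perm ℤ))) y :=
  locAb_of_bigImage S hS hexp hy (synd_of_almPer hy hap) h

end Pool.Agent.Lgo
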