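import Pool.Agent.Lgp.Fg

/-!
# Counting disjoint translates in a group without exponential growth
-/

namespace Pool.Agent.Lgo

open Pool.Agent.CTm Pool.Agent.Grm Pool.Agent.Lgp Filter

variable {G : Type*} [Group G]

theorem exp_of_step {S : Set G} (hS : S.Finite) {l : ℕ} (hl : 0 < l) {q : ℝ} (hq : 1 < q)
    (h : ∀ R : ℕ, q * growth S R ≤ growth S (R + l)) :
    ∃ c : ℝ, 1 < c ∧ ∀ᶠ n : ℕ in atTop, c ^ n ≤ growth S n := by
  have h0 : ∀ k : ℕ, q ^ k ≤ growth S (l * k) := by
    intro k
    induction k with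
    | zero =>
      have h1 : 0 < growth S 0 := by
        refine (Set.ncard_pos (ball_finite hS 0)).2 ⟨1, [], by simp, by simp, rfl⟩
      have h2 : (1 : ℝ) ≤ growth S 0 := by exact_mod_cast h1
      simpa using h2
    | succ k ih =>
      have h1 := h (l * k)
      rw [pow_succ, mul_comm]
      calc q * q ^ k ≤ q * growth S (l * k) := by
            refine mul_le_mul_of_nonneg_left ih (by linarith)
        _ ≤ growth S (l * k + l) := h1
        _ = growth S (l * (k + 1)) := by rw [mul_add, mul_one]
  have hl' : (0 : ℝ) < 2 * l := by positivity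
  have hc1 : (1 : ℝ) < q ^ ((1 : ℝ) / (2 * l)) := Real.one_lt_rpow hq (by positivity)
  have hc2 : (q ^ ((1 : ℝ) / (2 * l))) ^ (2 * l) = q := by
    rw [← Real.rpow_natCast, ← Real.rpow_mul (by linarith)]
    have : (1 : ℝ) / (2 * l) * ((2 * l : ℕ) : ℝ) = 1 := by
      push_cast
      field_simp
    rw [this, Real.rpow_one]
  refine ⟨_, hc1, ?_⟩
  filter_upwards [eventually_ge_atTop l] with n hn
  have h1 : 1 ≤ n / l := (Nat.one_le_div_iff hl).2 hn
  have h2 : n ≤ 2 * l * (n / l) := by
    have h3 := Nat.div_add_mod n l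
    have h4 := Nat.mod_lt n hl
    nlinarith
  have h3 : l * (n / l) ≤ n := Nat.mul_div_le n l
  calc (q ^ ((1 : ℝ) / (2 * l))) ^ n ≤ (q ^ ((1 : ℝ) / (2 * l))) ^ (2 * l * (n / l)) :=
        pow_le_pow_right₀ hc1.le h2
    _ = q ^ (n / l) := by rw [pow_mul, hc2]
    _ ≤ growth S (l * (n / l)) := h0 _
    _ ≤ growth S n := by
        have := growth_mono hS h3
        exact_mod_cast this

/-- If every element of the group lies in `c⁻¹ N` for one of the finitely many `c ∈ C`, then there are at most
`C.card` disjoint translates of `N`. -/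
theorem count {S : Set G} (hS : S.Finite) (hexp : NoExp S) {N : Set G} (C : Finset G)
    (hC : ∀ c ∈ C, c ∈ Subgroup.closure S) (hN : ∀ h ∈ Subgroup.closure S, ∃ c ∈ C, c * h ∈ N)
    {K : ℕ} (g : Fin K → G) (hg : ∀ i, g i ∈ Subgroup.closure S)
    (hdis : ∀ i j, i ≠ j → ∀ h ∈ Subgroup.closure S, (g i)⁻¹ * h ∈ N → (g j)⁻¹ * h ∉ N) :
    K ≤ C.card := by
  classical
  by_contra hK
  push Not at hK
  have hc0 : 0 < C.card := by
    obtain ⟨c, hc, _⟩ := hN 1 (one_mem _)
    exact Finset.card_pos.2 ⟨c, hc⟩
  -- a common length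
  have hlC : ∀ c ∈ C, ∃ n, c ∈ ball S n := fun c hc => mem_ball_of_closure (hC c hc)
  have hlg : ∀ i, ∃ n, g i ∈ ball S n := fun i => mem_ball_of_closure (hg i)
  choose! lC hlC using hlC
  choose lg hlg using hlg
  obtain ⟨l, hl0, hl1, hl2⟩ : ∃ l, 0 < l ∧ (∀ c ∈ C, c ∈ ball S l) ∧ ∀ i, g i ∈ ball S l := by
    refine ⟨C.sup lC + Finset.univ.sup lg + 1, by omega, fun c hc => ?_, fun i => ?_⟩
    · have := Finset.le_sup (f := lC) hc
      exact ball_mono (by omega) (hlC c hc)
    · have := Finset.le_sup (f := lg) (Finset.mem_univ i)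
      exact ball_mono (by omega) (hlg i)
  have hcl : ∀ n : ℕ, ∀ h ∈ ball S n, h ∈ Subgroup.closure S := by
    rintro n h ⟨l, _, h2, rfl⟩
    refine Subgroup.list_prod_mem _ fun x hx => ?_
    rcases h2 x hx with h3 | h3
    · exact Subgroup.subset_closure h3
    · exact (Subgroup.inv_mem_iff _).1 (Subgroup.subset_closure h3)
  have hq : (1 : ℝ) < (K : ℝ) / C.card := by
    rw [one_lt_div (by exact_mod_cast hc0)]
    exact_mod_cast hK
  refine hexp (exp_of_step hS (l := 2 * l) (by omega) hq fun R => ?_)
  -- the two finite sets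
  set B1 : Finset G := (ball_finite hS R).toFinset with hB1
  set B2 : Finset G := (ball_finite hS (R + l)).toFinset.filter (· ∈ N) with hB2
  set B3 : Finset G := (ball_finite hS (R + 2 * l)).toFinset with hB3
  have e1 : B1.card = growth S R := by
    rw [hB1, growth, Set.ncard_eq_toFinset_card _ (ball_finite hS R)]
  have e3 : B3.card = growth S (R + 2 * l) := by
    rw [hB3, growth, Set.ncard_eq_toFinset_card _ (ball_finite hS (R + 2 * l))]
  choose! cc hcc hccN using hN
  have h1 : B1.card ≤ C.card * B2.card := by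
    refine Finset.card_le_mul_card_image_of_maps_to (f := fun h => cc h * h) ?_ _ ?_
    · intro h hh
      have hh' : h ∈ ball S R := by simpa [hB1] using hh
      rw [hB2, Finset.mem_filter, Set.Finite.mem_toFinset]
      refine ⟨?_, hccN h (hcl _ _ hh')⟩
      have := ball_mul (hl1 _ (hcc h (hcl _ _ hh'))) hh'
      rwa [add_comm] at this
    · intro b _
      have : (B1.filter fun a => cc a * a = b) ⊆ C.image fun c => c⁻¹ * b := by
        intro a ha
        obtain ⟨ha1, ha2⟩ := Finset.mem_filter.1 ha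
        have ha1' : a ∈ ball S R := by simpa [hB1] using ha1
        rw [Finset.mem_image]
        exact ⟨cc a, hcc a (hcl _ _ ha1'), by rw [← ha2]; group⟩
      exact (Finset.card_le_card this).trans Finset.card_image_le
  have h2 : K * B2.card ≤ B3.card := by
    have h3 : (Finset.univ ×ˢ B2 : Finset (Fin K × G)).card ≤ B3.card := by
      refine Finset.card_le_card_of_injOn (fun p => g p.1 * p.2) ?_ ?_
      · rintro ⟨i, h⟩ hp
        have hp' : h ∈ B2 := by simpa using hp
        rw [hB2, Finset.mem_filter, Set.Finite.mem_toFinset] at hp'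
        rw [hB3, Finset.mem_coe, Set.Finite.mem_toFinset]
        have := ball_mul (hl2 i) hp'.1
        refine ball_mono ?_ this
        omega
      · rintro ⟨i, h⟩ hp ⟨j, h'⟩ hp' heq
        have hq1 : h ∈ B2 := by simpa using hp
        have hq2 : h' ∈ B2 := by simpa using hp'
        rw [hB2, Finset.mem_filter, Set.Finite.mem_toFinset] at hq1 hq2
        simp only at heq
        have hij : i = j := by
          by_contra hij
          refine hdis i j hij (g i * h) (mul_mem (hg i) (hcl _ _ hq1.1)) ?_ ?_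
          · rw [inv_mul_cancel_left]
            exact hq1.2
          · rw [heq, inv_mul_cancel_left]
            exact hq2.2
        subst hij
        rw [Prod.mk.injEq]
        exact ⟨rfl, mul_left_cancel heq⟩
    simpa using h3
  rw [e1] at h1
  rw [e3] at h2
  have hc0' : (0 : ℝ) < C.card := by exact_mod_cast hc0
  rw [div_mul_eq_mul_div, div_le_iff₀ hc0']
  have h4 : K * growth S R ≤ C.card * growth S (R + 2 * l) := by
    calc K * growth S R ≤ K * (C.card * B2.card) := Nat.mul_le_mul_left _ h1
      _ = C.card * (K * B2.card) := by ring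
      _ ≤ _ := Nat.mul_le_mul_left _ h2
  have h5 : (K : ℝ) * growth S R ≤ C.card * growth S (R + 2 * l) := by exact_mod_cast h4
  linarith

end Pool.Agent.Lgo
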