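import Mathlib

/-!
# Divisibility chains among numbers with bounded prime factors
-/

namespace Pool.Agent.Lgo

/-- Dickson: in a sequence tending to infinity of divisors of powers of `Q` there is a strictly increasing
divisibility chain -/
theorem exists_chain {Q : ℕ} (W : ℕ → ℕ) (hW : ∀ k, ∃ e, W k ∣ Q ^ e) (hQ : 0 < Q)
    (hinf : ∀ k, k + 1 ≤ W k) :
    ∃ φ : ℕ → ℕ, ∀ i j, i < j → W (φ i) < W (φ j) ∧ W (φ i) ∣ W (φ j) := by
  obtain ⟨ψ, hψ1, hψ2⟩ := Filter.strictMono_subseq_of_id_le (u := W) fun k => (Nat.le_succ k).trans (hinf k)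
  let f : ℕ → (Q.primeFactors → ℕ) := fun k p => (W (ψ k)).factorization p
  have hw : WellQuasiOrdered fun a b : (Q.primeFactors → ℕ) => a ≤ b := WellQuasiOrderedLE.wqo
  obtain ⟨g, hg⟩ := hw.exists_monotone_subseq f
  refine ⟨fun i => ψ (g i), fun i j hij => ⟨hψ2 (g.strictMono hij), ?_⟩⟩
  have h1 := hg i j hij.le
  have hne : ∀ k, W k ≠ 0 := fun k => by have := hinf k; omega
  rw [← Nat.factorization_prime_le_iff_dvd (hne _) (hne _)]
  intro p hp
  by_cases hpQ : p ∈ Q.primeFactors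
  · exact h1 ⟨p, hpQ⟩
  · have h2 : (W (ψ (g i))).factorization p = 0 := by
      refine Nat.factorization_eq_zero_of_not_dvd fun h3 => hpQ ?_
      obtain ⟨e, he⟩ := hW (ψ (g i))
      exact Nat.mem_primeFactors.2 ⟨hp, hp.dvd_of_dvd_pow (h3.trans he), hQ.ne'⟩
    rw [h2]
    exact Nat.zero_le _

end Pool.Agent.Lgo
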