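import Pool.Agent.Lgo.Near
import Pool.Agent.Lgo.Defs

/-!
# Minimal orbit closures
-/

namespace Pool.Agent.Lgo

open Pool.Agent.CTm Pool.Agent.Grm Pool.Agent.Lgp Filter Nat

/-- compactness: every sequence of profinite integers has an accumulation point -/
theorem exists_limit (u : ℕ → ℕ → ℤ) (hu : ∀ n, Pro (u n)) :
    ∃ w : ℕ → ℤ, Pro w ∧ ∀ j N : ℕ, ∃ n, N ≤ n ∧ ((j ! : ℕ) : ℤ) ∣ u n j - w j := by
  classical
  let I : ℕ → ℤ → Prop := fun j r => ∀ N : ℕ, ∃ n, N ≤ n ∧ ((j ! : ℕ) : ℤ) ∣ u n j - r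
  have h0 : I 0 0 := fun N => ⟨N, le_rfl, by simp⟩
  have hstep : ∀ (j : ℕ) (r : ℤ), I j r → ∃ k : ℕ, I (j + 1) (r + ((j ! : ℕ) : ℤ) * k) := by
    intro j r hr
    by_contra hcon
    push Not at hcon
    have h1 : ∀ k : ℕ, ∃ N : ℕ, ∀ n, N ≤ n →
        ¬ (((j + 1) ! : ℕ) : ℤ) ∣ u n (j + 1) - (r + ((j ! : ℕ) : ℤ) * k) := by
      intro k
      have := hcon k
      simp only [I, not_forall, not_exists, not_and] at this
      obtain ⟨N, hN⟩ := this
      exact ⟨N, fun n hn => hN n hn⟩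
    choose N hN using h1
    obtain ⟨n, hn1, hn2⟩ := hr ((Finset.range (j + 1)).sup N)
    have h2 : ((j ! : ℕ) : ℤ) ∣ u n (j + 1) - r := by
      have e1 : u n (j + 1) - r = (u n (j + 1) - u n j) + (u n j - r) := by ring
      rw [e1]
      exact dvd_add (hu n j) hn2
    obtain ⟨q, hq⟩ := h2
    have hj1 : (0 : ℤ) < ((j + 1 : ℕ) : ℤ) := by positivity
    have hk : (q % ((j + 1 : ℕ) : ℤ)).toNat ∈ Finset.range (j + 1) := by
      rw [Finset.mem_range]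
      have h4 := Int.emod_lt_of_pos q hj1
      have h5 := Int.emod_nonneg q hj1.ne'
      omega
    have hkc : (((q % ((j + 1 : ℕ) : ℤ)).toNat : ℕ) : ℤ) = q % ((j + 1 : ℕ) : ℤ) :=
      Int.toNat_of_nonneg (Int.emod_nonneg q hj1.ne')
    refine hN _ n ((Finset.le_sup (f := N) hk).trans hn1) ?_
    rw [hkc, Nat.factorial_succ]
    refine ⟨q / ((j + 1 : ℕ) : ℤ), ?_⟩
    have h6 := Int.emod_add_mul_ediv q ((j + 1 : ℕ) : ℤ)
    push_cast at h6 ⊢
    linear_combination hq - ((j ! : ℕ) : ℤ) * h6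
  choose! f hf using hstep
  let w : ℕ → ℤ := fun j => Nat.rec 0 (fun j r => r + ((j ! : ℕ) : ℤ) * f j r) j
  have hw0 : w 0 = 0 := rfl
  have hws : ∀ j, w (j + 1) = w j + ((j ! : ℕ) : ℤ) * f j (w j) := fun j => rfl
  refine ⟨w, fun j => ⟨f j (w j), by rw [hws]; ring⟩, ?_⟩
  intro j
  induction j with
  | zero => rw [hw0]; exact h0
  | succ j ih =>
    rw [hws]
    exact hf j (w j) ih

variable {S : Set (Equiv.Perm ℤ)} {M : ℕ} {A : Finset (ℚ × ℚ)} {y : ℕ → ℤ}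

/-- the residues of the orbit modulo `j!` -/
def res (H : Subgroup (Equiv.Perm ℤ)) (x : ℕ → ℤ) (j : ℕ) : Set (ZMod (j !)) :=
  {r | ∃ g ∈ H, ∀ᶠ n in nh x, ((g n : ℤ) : ZMod (j !)) = r}

theorem at_zmod {x : ℕ → ℤ} {g : Equiv.Perm ℤ} {r : ℤ} {Q : ℕ} :
    At x g r Q ↔ ∀ᶠ n in nh x, ((g n : ℤ) : ZMod Q) = (r : ZMod Q) := by
  unfold At
  refine eventually_congr (Eventually.of_forall fun n => ?_)
  rw [← sub_eq_zero (a := ((g n : ℤ) : ZMod Q)), ← Int.cast_sub, ZMod.intCast_zmod_eq_zero_iff_dvd]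

theorem clo_res {H : Subgroup (Equiv.Perm ℤ)} {x y : ℕ → ℤ} (hx : Pro x) :
    Clo H x y ↔ ∀ j : ℕ, ((y j : ℤ) : ZMod (j !)) ∈ res H x j := by
  rw [clo_iff hx]
  refine forall_congr' fun j => ?_
  unfold res
  simp only [Set.mem_ofPred_eq, at_zmod]

theorem res_sub {H : Subgroup (Equiv.Perm ℤ)} {x y : ℕ → ℤ} (hx : Pro x) (hy : Pro y)
    (h : Clo H x y) (j : ℕ) : res H y j ⊆ res H x j := by
  rintro r ⟨g, hg, h1⟩
  obtain ⟨k, hk, h2⟩ := Clo.ev hx hy h h1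
  exact ⟨g * k, mul_mem hg hk, h2⟩

theorem exists_minPt (hd : Data S M A) {x : ℕ → ℤ} (hx : Pro x) :
    ∃ y : ℕ → ℤ, Pro y ∧ Clo (Subgroup.closure S) x y ∧ MinPt (Subgroup.closure S) y := by
  classical
  set H := Subgroup.closure S with hH
  let X := {z : ℕ → ℤ // Pro z}
  -- one step
  have hstep : ∀ (j : ℕ) (u : X), ∃ v : X, Clo H u.1 v.1 ∧
      ∀ w : X, Clo H u.1 w.1 → (res H v.1 j).ncard ≤ (res H w.1 j).ncard := by
    intro j u
    have hne : {n : ℕ | ∃ v : X, Clo H u.1 v.1 ∧ (res H v.1 j).ncard = n}.Nonempty :=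
      ⟨_, u, Clo.refl H u.2, rfl⟩
    obtain ⟨v, hv, hvn⟩ := Nat.sInf_mem hne
    refine ⟨v, hv, fun w hw => ?_⟩
    rw [hvn]
    exact Nat.sInf_le ⟨w, hw, rfl⟩
  choose f hf1 hf2 using hstep
  let u : ℕ → X := fun j => Nat.rec ⟨x, hx⟩ (fun j v => f (j + 1) v) j
  have hus : ∀ j, u (j + 1) = f (j + 1) (u j) := fun j => rfl
  have hclo : ∀ i j, i ≤ j → Clo H (u i).1 (u j).1 := by
    intro i j hij
    induction j, hij using Nat.le_induction with
    | base => exact Clo.refl H (u i).2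
    | succ j _ ih =>
      rw [hus]
      exact Clo.trans (u i).2 (u j).2 ih (hf1 _ _)
  have hfin : ∀ (v : X) (j : ℕ), (res H v.1 j).Finite := by
    intro v j
    have : NeZero (j !) := ⟨(Nat.factorial_pos j).ne'⟩
    exact Set.toFinite _
  -- the residues are minimal
  have hmin : ∀ (j : ℕ) (w : X), Clo H (u j).1 w.1 → res H w.1 j = res H (u j).1 j := by
    intro j w hw
    cases j with
    | zero =>
      have h1 := res_sub (u 0).2 w.2 hw 0
      refine Set.Subset.antisymm h1 fun r _ => ?_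
      refine ⟨1, one_mem _, Eventually.of_forall fun n => ?_⟩
      exact Subsingleton.elim (α := ZMod 1) _ _
    | succ j =>
      have h1 := res_sub (u (j + 1)).2 w.2 hw (j + 1)
      refine Set.eq_of_subset_of_ncard_le h1 ?_ (hfin _ _)
      have h2 := hf2 (j + 1) (u j) w (Clo.trans (u j).2 (u (j + 1)).2 (hclo j (j + 1) (Nat.le_succ j)) hw)
      rw [← hus] at h2
      exact h2
  -- the limit point
  have hlift : ∀ (j : ℕ) (r : ℤ), ((r : ℤ) : ZMod (j !)) ∈ res H (u j).1 j →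
      ∃ r' : ℤ, ((j ! : ℕ) : ℤ) ∣ r' - r ∧ ((r' : ℤ) : ZMod ((j + 1) !)) ∈ res H (u (j + 1)).1 (j + 1) := by
    intro j r hr
    rw [← hmin j (u (j + 1)) (hclo j (j + 1) (Nat.le_succ j))] at hr
    obtain ⟨g, hg, h1⟩ := hr
    have h1' : At (u (j + 1)).1 g r (j !) := at_zmod.2 h1
    obtain ⟨r', hr'⟩ := at_exists hd (u (j + 1)).2 hg ((j + 1) !) (Nat.factorial_pos _)
    refine ⟨r', ?_, g, hg, at_zmod.1 hr'⟩
    exact At.unique (u (j + 1)).2 (hr'.dvd (Nat.factorial_dvd_factorial (Nat.le_succ j))) h1'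
  choose! e he1 he2 using hlift
  let z : ℕ → ℤ := fun j => Nat.rec 0 (fun j r => e j r) j
  have hz0 : z 0 = 0 := rfl
  have hzs : ∀ j, z (j + 1) = e j (z j) := fun j => rfl
  have hzr : ∀ j : ℕ, (Int.cast (z j) : ZMod (j !)) ∈ res H (u j).1 j := by
    intro j
    induction j with
    | zero =>
      refine ⟨1, one_mem _, Eventually.of_forall fun n => ?_⟩
      exact Subsingleton.elim (α := ZMod 1) _ _
    | succ j ih =>
      rw [hzs]
      exact he2 j _ ih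
  have hz : Pro z := fun j => by
    rw [hzs]
    exact he1 j _ (hzr j)
  have huz : ∀ i, Clo H (u i).1 z := by
    intro i
    rw [clo_res (u i).2]
    intro j
    rcases le_total i j with hij | hij
    · exact res_sub (u i).2 (u j).2 (hclo i j hij) j (hzr j)
    · rw [hmin j (u i) (hclo j i hij)]
      exact hzr j
  refine ⟨z, hz, huz 0, fun w hw hzw => ?_⟩
  rw [clo_res hw]
  intro j
  rw [hmin j ⟨w, hw⟩ (Clo.trans (u j).2 hz (huz j) hzw)]
  exact hzr j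

/-- visits to a class are syndetic -/
def Synd (H : Subgroup (Equiv.Perm ℤ)) (y : ℕ → ℤ) : Prop :=
  ∀ g ∈ H, ∀ (r : ℤ) (Q : ℕ), At y g r Q →
    ∃ C : Finset (Equiv.Perm ℤ), (∀ c ∈ C, c ∈ H) ∧ ∀ h ∈ H, ∃ c ∈ C, At y (c * h) r Q

/-- almost periodic points -/
theorem synd_of_almPer {H : Subgroup (Equiv.Perm ℤ)} (hy : Pro y)
    (h : ∀ j : ℕ, ∃ F : Finset (Equiv.Perm ℤ), (∀ t ∈ F, t ∈ H) ∧ ∀ g ∈ H, ∃ t ∈ F, ∃ i : ℕ, ∀ n : ℤ,
      ((i ! : ℕ) : ℤ) ∣ n - y i → ((j ! : ℕ) : ℤ) ∣ t (g n) - y j) : Synd H y := by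
  classical
  intro g hg r Q hgr
  obtain ⟨i, hi⟩ := (ev_iff hy).1 hgr
  obtain ⟨F, hF1, hF2⟩ := h i
  refine ⟨F.image (g * ·), ?_, ?_⟩
  · intro c hc
    obtain ⟨t, ht, rfl⟩ := Finset.mem_image.1 hc
    exact mul_mem hg (hF1 t ht)
  · intro k hk
    obtain ⟨t, ht, h1⟩ := hF2 k hk
    refine ⟨g * t, Finset.mem_image_of_mem _ ht, ?_⟩
    filter_upwards [(ev_iff hy).2 h1] with n hn
    exact hi _ hn

theorem synd_of_minPt (hS : S.Finite) (hd : Data S M A) (hy : Pro y)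
    (hmin : MinPt (Subgroup.closure S) y) : Synd (Subgroup.closure S) y := by
  intro g hg r Q hgr
  classical
  set H := Subgroup.closure S with hH
  have hcl : ∀ n : ℕ, ∀ h ∈ ball S n, h ∈ H := by
    rintro n h ⟨l, _, h2, rfl⟩
    exact list_mem h2
  by_contra hcon
  push Not at hcon
  have h1 : ∀ n : ℕ, ∃ h ∈ H, ∀ c ∈ ball S n, ¬ At y (c * h) r Q := by
    intro n
    obtain ⟨h, hh, h2⟩ := hcon (ball_finite hS n).toFinset
      (fun c hc => hcl n c ((Set.Finite.mem_toFinset _).1 hc))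
    exact ⟨h, hh, fun c hc => h2 c ((Set.Finite.mem_toFinset _).2 hc)⟩
  choose h hh hn using h1
  have h2 : ∀ n : ℕ, ∃ z : ℕ → ℤ, Pro z ∧ Pt y (h n) z := fun n => pt_exists hd hy (hh n)
  choose u hu hpt using h2
  obtain ⟨w, hw, hlim⟩ := exists_limit u hu
  have hyw : Clo H y w := by
    rw [clo_iff hy]
    intro j
    obtain ⟨n, _, h3⟩ := hlim j 0
    exact ⟨h n, hh n, (hpt n j).congr h3⟩
  obtain ⟨k, hk, h3⟩ := Clo.ev hw hy (hmin w hw hyw) hgr
  obtain ⟨N, hN⟩ := mem_ball_of_closure (mul_mem hg hk)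
  obtain ⟨i, hi⟩ := (ev_iff hw).1 h3
  obtain ⟨n, hNn, h4⟩ := hlim i N
  refine hn n (g * k) (ball_mono hNn hN) ?_
  filter_upwards [(hpt n i).congr h4] with m hm
  exact hi _ hm

end Pool.Agent.Lgo
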