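import Pool.Agent.Lgp.Cont

/-!
# The filter of the integers near a profinite integer
-/

namespace Pool.Agent.Lgo

open Pool.Agent.CTm Pool.Agent.Grm Pool.Agent.Lgp Filter Nat

/-- the integers near the profinite integer `y` -/
def nh (y : ℕ → ℤ) : Filter ℤ := ⨅ i : ℕ, 𝓟 {n : ℤ | ((i ! : ℕ) : ℤ) ∣ n - y i}

variable {y : ℕ → ℤ}

theorem ev_iff (hy : Pro y) {P : ℤ → Prop} :
    (∀ᶠ n in nh y, P n) ↔ ∃ i : ℕ, ∀ n : ℤ, ((i ! : ℕ) : ℤ) ∣ n - y i → P n := by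
  have hdir : Directed (· ≥ ·) fun i : ℕ => 𝓟 {n : ℤ | ((i ! : ℕ) : ℤ) ∣ n - y i} := by
    intro i j
    refine ⟨max i j, ?_, ?_⟩
    · exact principal_mono.2 fun n hn => pro_deep hy (le_max_left i j) hn
    · exact principal_mono.2 fun n hn => pro_deep hy (le_max_right i j) hn
  unfold nh
  rw [Filter.Eventually, mem_iInf_of_directed hdir]
  simp only [mem_principal]
  exact Iff.rfl

theorem ev_lev (y : ℕ → ℤ) (i : ℕ) : ∀ᶠ n in nh y, ((i ! : ℕ) : ℤ) ∣ n - y i := by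
  unfold nh
  exact mem_iInf_of_mem i (mem_principal_self _)

theorem nh_neBot (hy : Pro y) : (nh y).NeBot := by
  refine ⟨fun h => ?_⟩
  have h1 : ∀ᶠ n in nh y, (fun _ : ℤ => False) n := by
    rw [h]
    exact eventually_bot
  obtain ⟨i, hi⟩ := (ev_iff hy).1 h1
  exact hi (y i) (by simp)

theorem nh_exists (hy : Pro y) {P : ℤ → Prop} (h : ∀ᶠ n in nh y, P n) : ∃ n, P n := by
  have := nh_neBot hy
  exact h.exists

theorem germ_iff (hy : Pro y) {g : Equiv.Perm ℤ} {a : ℚ × ℚ} :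
    Germ y g a ↔ ∀ᶠ n in nh y, ((g n : ℤ) : ℚ) = a.1 * n + a.2 := (ev_iff hy).symm

/-- the point `g y` lies in the class `r + Q ℤ` -/
def At (y : ℕ → ℤ) (g : Equiv.Perm ℤ) (r : ℤ) (Q : ℕ) : Prop := ∀ᶠ n in nh y, (Q : ℤ) ∣ g n - r

theorem At.dvd {g : Equiv.Perm ℤ} {r : ℤ} {Q Q' : ℕ} (h : At y g r Q) (hQ : Q' ∣ Q) : At y g r Q' := by
  filter_upwards [h] with n hn
  exact (Int.natCast_dvd_natCast.2 hQ).trans hn

theorem At.congr {g : Equiv.Perm ℤ} {r r' : ℤ} {Q : ℕ} (h : At y g r Q) (hQ : (Q : ℤ) ∣ r - r') :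
    At y g r' Q := by
  filter_upwards [h] with n hn
  have e1 : g n - r' = (g n - r) + (r - r') := by ring
  rw [e1]
  exact dvd_add hn hQ

theorem At.unique (hy : Pro y) {g : Equiv.Perm ℤ} {r r' : ℤ} {Q : ℕ} (h : At y g r Q)
    (h' : At y g r' Q) : (Q : ℤ) ∣ r - r' := by
  obtain ⟨n, h1, h2⟩ := nh_exists hy (h.and h')
  have e1 : r - r' = (g n - r') - (g n - r) := by ring
  rw [e1]
  exact dvd_sub h2 h1

variable {S : Set (Equiv.Perm ℤ)} {M : ℕ} {A : Finset (ℚ × ℚ)}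

theorem at_exists (hd : Data S M A) (hy : Pro y) {g : Equiv.Perm ℤ}
    (hg : g ∈ Subgroup.closure S) (Q : ℕ) (hQ : 0 < Q) : ∃ r : ℤ, At y g r Q := by
  obtain ⟨a, _, ha⟩ := exists_germ hd hy hg
  obtain ⟨i, hi⟩ := germ_cont hy ha Q hQ
  exact ⟨g (y i), (ev_iff hy).2 ⟨i, fun n hn => hi i le_rfl n hn⟩⟩

theorem at_cases (hd : Data S M A) (hy : Pro y) {g : Equiv.Perm ℤ}
    (hg : g ∈ Subgroup.closure S) {Q : ℕ} (hQ : 0 < Q) {r : ℤ} (h : ¬ At y g r Q) :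
    ∀ᶠ n in nh y, ¬ (Q : ℤ) ∣ g n - r := by
  obtain ⟨r', hr'⟩ := at_exists hd hy hg Q hQ
  filter_upwards [hr'] with n hn hn'
  refine h (hr'.congr ?_)
  have e1 : r' - r = (g n - r) - (g n - r') := by ring
  rw [e1]
  exact dvd_sub hn' hn

/-- `z` is the point `g y` -/
def Pt (y : ℕ → ℤ) (g : Equiv.Perm ℤ) (z : ℕ → ℤ) : Prop := ∀ j : ℕ, At y g (z j) (j !)

theorem pt_exists (hd : Data S M A) (hy : Pro y) {g : Equiv.Perm ℤ}
    (hg : g ∈ Subgroup.closure S) : ∃ z : ℕ → ℤ, Pro z ∧ Pt y g z := by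
  have h : ∀ j : ℕ, ∃ r : ℤ, At y g r (j !) := fun j => at_exists hd hy hg _ (Nat.factorial_pos j)
  choose z hz using h
  refine ⟨z, fun j => ?_, hz⟩
  exact At.unique hy ((hz (j + 1)).dvd (Nat.factorial_dvd_factorial (Nat.le_succ j))) (hz j)

theorem Pt.ev {g : Equiv.Perm ℤ} {z : ℕ → ℤ} (hz : Pro z) (h : Pt y g z) {P : ℤ → Prop}
    (hP : ∀ᶠ n in nh z, P n) : ∀ᶠ n in nh y, P (g n) := by
  obtain ⟨i, hi⟩ := (ev_iff hz).1 hP
  filter_upwards [h i] with n hn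
  exact hi _ hn

theorem Pt.at {g : Equiv.Perm ℤ} {z : ℕ → ℤ} (hz : Pro z) (h : Pt y g z) {k : Equiv.Perm ℤ}
    {r : ℤ} {Q : ℕ} (hP : At z k r Q) : At y (k * g) r Q := h.ev hz hP

theorem Pt.at' (hd : Data S M A) (hy : Pro y) {g : Equiv.Perm ℤ} {z : ℕ → ℤ} (hz : Pro z)
    (h : Pt y g z) {k : Equiv.Perm ℤ} (hk : k ∈ Subgroup.closure S) {r : ℤ} {Q : ℕ} (hQ : 0 < Q)
    (hP : At y (k * g) r Q) : At z k r Q := by
  obtain ⟨r', hr'⟩ := at_exists hd hz hk Q hQ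
  exact hr'.congr (At.unique hy (h.at hz hr') hP)

/-- germs at `g y` -/
theorem germ_at (hd : Data S M A) (hy : Pro y) {g h : Equiv.Perm ℤ} (hg : g ∈ Subgroup.closure S)
    (hh : h ∈ Subgroup.closure S) : ∃ a : ℚ × ℚ, 0 < a.1 ∧
      ∀ᶠ n in nh y, ((h (g n) : ℤ) : ℚ) = a.1 * (g n : ℤ) + a.2 := by
  obtain ⟨z, hz, hzg⟩ := pt_exists hd hy hg
  obtain ⟨a, ha0, ha⟩ := exists_germ hd hz hh
  exact ⟨a, ha0, hzg.ev hz ((germ_iff hz).1 ha)⟩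

theorem clo_iff {H : Subgroup (Equiv.Perm ℤ)} {x y : ℕ → ℤ} (hx : Pro x) :
    Clo H x y ↔ ∀ j : ℕ, ∃ h ∈ H, At x h (y j) (j !) := by
  unfold Clo At
  constructor
  · intro h j
    obtain ⟨g, hg, h1⟩ := h j
    exact ⟨g, hg, (ev_iff hx).2 h1⟩
  · intro h j
    obtain ⟨g, hg, h1⟩ := h j
    exact ⟨g, hg, (ev_iff hx).1 h1⟩

/-- transport along the closure of an orbit -/
theorem Clo.ev {H : Subgroup (Equiv.Perm ℤ)} {x y : ℕ → ℤ} (hx : Pro x) (hy : Pro y)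
    (h : Clo H x y) {P : ℤ → Prop} (hP : ∀ᶠ n in nh y, P n) : ∃ g ∈ H, ∀ᶠ n in nh x, P (g n) := by
  obtain ⟨i, hi⟩ := (ev_iff hy).1 hP
  obtain ⟨g, hg, h1⟩ := (clo_iff hx).1 h i
  refine ⟨g, hg, ?_⟩
  filter_upwards [h1] with n hn
  exact hi _ hn

theorem Clo.trans {H : Subgroup (Equiv.Perm ℤ)} {x y z : ℕ → ℤ} (hx : Pro x) (hy : Pro y)
    (h : Clo H x y) (h' : Clo H y z) : Clo H x z := by
  rw [clo_iff hx]
  intro j
  obtain ⟨g, hg, h1⟩ := (clo_iff hy).1 h' j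
  obtain ⟨k, hk, h2⟩ := Clo.ev hx hy h h1
  exact ⟨g * k, mul_mem hg hk, h2⟩

theorem Clo.refl (H : Subgroup (Equiv.Perm ℤ)) {x : ℕ → ℤ} (hx : Pro x) : Clo H x x := by
  rw [clo_iff hx]
  intro j
  exact ⟨1, one_mem _, ev_lev x j⟩

theorem Pt.clo {H : Subgroup (Equiv.Perm ℤ)} (hy : Pro y) {g : Equiv.Perm ℤ} (hg : g ∈ H)
    {z : ℕ → ℤ} (h : Pt y g z) : Clo H y z := by
  rw [clo_iff hy]
  exact fun j => ⟨g, hg, h j⟩

end Pool.Agent.Lgo
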