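import Pool.Agent.Lgo.Count
import Pool.Agent.Lgo.Min
import Pool.Agent.Lgo.MU
import Pool.Agent.Lgo.Dick

/-!
# Large images of a class: a contraction of the class
-/

namespace Pool.Agent.Lgo

open Pool.Agent.CTm Pool.Agent.Grm Pool.Agent.Lgp Filter Nat

variable {S : Set (Equiv.Perm ℤ)} {M : ℕ} {A : Finset (ℚ × ℚ)} {y : ℕ → ℤ}

/-- an integer whose prime factors contain those of all slopes -/
theorem exists_unitBase (hd : Data S M A) : ∃ D : ℕ, 0 < D ∧ ∀ c ∈ A, MU D c.1 := by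
  classical
  have hpos : ∀ c ∈ A, 0 < c.1.num.natAbs * c.1.den := fun c hc =>
    Nat.mul_pos (Int.natAbs_pos.2 (Rat.num_pos.2 (hd.slope c hc)).ne') c.1.den_pos
  refine ⟨∏ c ∈ A, (c.1.num.natAbs * c.1.den), Finset.prod_pos hpos, fun c hc => ?_⟩
  have h1 : c.1.num.natAbs * c.1.den ∣ ∏ c ∈ A, (c.1.num.natAbs * c.1.den) :=
    Finset.dvd_prod_of_mem (fun c : ℚ × ℚ => c.1.num.natAbs * c.1.den) hc
  have hnum : 0 < c.1.num := Rat.num_pos.2 (hd.slope c hc)
  have h2 : ((c.1.num.natAbs : ℕ) : ℤ) = c.1.num := Int.natAbs_of_nonneg hnum.le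
  refine ⟨c.1.num.natAbs, c.1.den, 1, ?_, ?_, ?_⟩
  · rw [pow_one]
    exact (Dvd.intro _ rfl).trans h1
  · rw [pow_one]
    exact (Dvd.intro_left _ rfl).trans h1
  · have h3 : ((c.1.num.natAbs : ℕ) : ℚ) = c.1.num := by
      have h4 : (((c.1.num.natAbs : ℕ) : ℤ) : ℚ) = c.1.num := congrArg (fun z : ℤ => (z : ℚ)) h2
      simpa using h4
    rw [h3, mul_comm]
    exact Rat.mul_den_eq_num c.1

theorem germ_mu (hd : Data S M A) (hy : Pro y) {D : ℕ} (hD : ∀ c ∈ A, MU D c.1) {g : Equiv.Perm ℤ}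
    (hg : g ∈ Subgroup.closure S) : ∃ a : ℚ × ℚ, 0 < a.1 ∧ MU D a.1 ∧ Germ y g a := by
  obtain ⟨l, hl, rfl⟩ := list_of_closure hg
  clear hg
  induction l with
  | nil => exact ⟨(1, 0), one_pos, MU.one D, Germ.one⟩
  | cons s l ih =>
    obtain ⟨a, ha0, ha1, ha⟩ := ih fun x hx => hl x (by simp [hx])
    obtain ⟨b, hb, hb'⟩ := Germ.step hy hd ha (hl s (by simp))
    rw [List.prod_cons]
    exact ⟨_, mul_pos (hd.slope b hb) ha0, (hD b hb).mul ha1, hb'⟩

/-- the slope of an affine piece on a class which meets the orbit -/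
theorem class_mu (hd : Data S M A) (hy : Pro y) {D : ℕ} (hD : ∀ c ∈ A, MU D c.1) {g h : Equiv.Perm ℤ}
    (hg : g ∈ Subgroup.closure S) (hh : h ∈ Subgroup.closure S) {b : ℤ} {L : ℕ} (hgb : At y g b L)
    {a : ℚ × ℚ} (ha : ∀ n : ℤ, (L : ℤ) ∣ n - b → ((h n : ℤ) : ℚ) = a.1 * n + a.2) : MU D a.1 := by
  obtain ⟨z, hz, hpt⟩ := pt_exists hd hy hg
  obtain ⟨c, _, hc1, hc2⟩ := germ_mu hd hz hD hh
  have h1 := hpt.ev hz ((germ_iff hz).1 hc2)
  have h2 : GermAt y g h c := (ev_iff hy).1 h1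
  have h3 : GermAt y g h a := by
    refine (ev_iff hy).1 ?_
    filter_upwards [hgb] with n hn
    exact ha _ hn
  rw [GermAt.unique hy h3 h2]
  exact hc1

theorem exists_selfMap {S : Finset (Equiv.Perm ℤ)} (hexp : NoExp (S : Set (Equiv.Perm ℤ)))
    (hd : Data (S : Set (Equiv.Perm ℤ)) M A) (hy : Pro y)
    (hsyn : Synd (Subgroup.closure (S : Set (Equiv.Perm ℤ))) y)
    (h : BigImage (Subgroup.closure (S : Set (Equiv.Perm ℤ))) y) :
    ∃ (L : ℕ) (b τ : ℤ) (β : ℕ) (T g : Equiv.Perm ℤ), 0 < L ∧ 2 ≤ β ∧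
      T ∈ Subgroup.closure (S : Set (Equiv.Perm ℤ)) ∧ g ∈ Subgroup.closure (S : Set (Equiv.Perm ℤ)) ∧
      At y g b L ∧ (∀ n : ℤ, (L : ℤ) ∣ n - b → T n = β * n + τ) ∧
      ∀ n : ℤ, (L : ℤ) ∣ n - b → (L : ℤ) ∣ T n - b := by
  classical
  set H := Subgroup.closure (S : Set (Equiv.Perm ℤ)) with hH
  obtain ⟨L, hL0, hbig⟩ := h
  have hL0' : (0 : ℤ) < L := by exact_mod_cast hL0
  -- one class
  obtain ⟨b, hb⟩ : ∃ b : ℤ, ∀ k : ℕ, ∃ c ∈ H, At y c b L ∧ ∃ h ∈ H, ∃ a : ℚ × ℚ, (k : ℚ) ≤ a.1 ∧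
      ∀ n : ℤ, (L : ℤ) ∣ n - b → ((h n : ℤ) : ℚ) = a.1 * n + a.2 := by
    by_contra hcon
    push Not at hcon
    choose K hK using hcon
    obtain ⟨c, hc, h, hh, a, hka, i, hi⟩ := hbig ((Finset.range L).sup fun b => K b)
    obtain ⟨r, hr⟩ := at_exists hd hy hc L hL0
    have hr' : At y c (r % L) L := hr.congr (by
      rw [Int.dvd_iff_emod_eq_zero]
      simp [Int.sub_emod])
    have h1 : 0 ≤ r % L := Int.emod_nonneg r hL0'.ne'
    have h2 : r % L < L := Int.emod_lt_of_pos r hL0'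
    obtain ⟨b, hb⟩ := Int.eq_ofNat_of_zero_le h1
    rw [hb] at hr' h2
    have h3 : b ∈ Finset.range L := Finset.mem_range.2 (by exact_mod_cast h2)
    have h4 : (K b : ℕ) ≤ (Finset.range L).sup fun b => K b := Finset.le_sup (f := fun b : ℕ => K b) h3
    obtain ⟨n0, e1, e2⟩ := nh_exists hy (hr'.and ((ev_iff hy).2 ⟨i, hi⟩))
    obtain ⟨x, hx1, hx2⟩ := hK b c hc hr' h hh a (by
      have h5 : ((K b : ℕ) : ℚ) ≤ (((Finset.range L).sup fun b => K b : ℕ) : ℚ) := by exact_mod_cast h4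
      exact h5.trans hka)
    refine hx2 ?_
    have e3 : (L : ℤ) ∣ x - c n0 := by
      have e4 : x - c n0 = (x - b) - (c n0 - b) := by ring
      rw [e4]
      exact dvd_sub hx1 e1
    obtain ⟨t, ht⟩ := e3
    have e5 : x = c n0 + L * t := by rw [← ht]; ring
    rw [e5]
    exact e2 t
  obtain ⟨g0, hg0, hg0b, _⟩ := hb 0
  have hb' : ∀ k : ℕ, ∃ h ∈ H, ∃ a : ℚ × ℚ, ((k + 1 : ℕ) : ℚ) ≤ a.1 ∧
      ∀ n : ℤ, (L : ℤ) ∣ n - b → ((h n : ℤ) : ℚ) = a.1 * n + a.2 := fun k => by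
    obtain ⟨c, _, _, h, hh, a, h1, h2⟩ := hb (k + 1)
    exact ⟨h, hh, a, h1, h2⟩
  choose h hh a hka hha using hb'
  -- the moduli of the images
  have hW : ∀ k : ℕ, ∃ w : ℕ, (w : ℚ) = (a k).1 * L := by
    intro k
    have h1 : ((h k (b + L) - h k b : ℤ) : ℚ) = (a k).1 * L := by
      push_cast
      rw [hha k (b + L) ⟨1, by ring⟩, hha k b ⟨0, by ring⟩]
      push_cast
      ring
    have h2 : (0 : ℚ) < (a k).1 * L := by
      have h3 : (0 : ℚ) < (a k).1 := lt_of_lt_of_le (by positivity) (hka k)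
      have h4 : (0 : ℚ) < L := by exact_mod_cast hL0
      positivity
    have h3 : (0 : ℤ) ≤ h k (b + L) - h k b := by
      have h4 : (0 : ℚ) < ((h k (b + L) - h k b : ℤ) : ℚ) := by rw [h1]; exact h2
      have h5 : (0 : ℤ) < h k (b + L) - h k b := by exact_mod_cast h4
      exact h5.le
    obtain ⟨w, hw⟩ := Int.eq_ofNat_of_zero_le h3
    refine ⟨w, ?_⟩
    rw [← h1, hw]
    simp
  choose W hW using hW
  have hLq : (0 : ℚ) < L := by exact_mod_cast hL0
  have hWk : ∀ k, k + 1 ≤ W k := by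
    intro k
    have h1 : ((k + 1 : ℕ) : ℚ) ≤ W k := by
      rw [hW k]
      have h2 : (1 : ℚ) ≤ L := by exact_mod_cast hL0
      have h3 := hka k
      have h4 : (0 : ℚ) ≤ ((k + 1 : ℕ) : ℚ) := by positivity
      nlinarith
    exact_mod_cast h1
  obtain ⟨D, hD0, hD⟩ := exists_unitBase hd
  have hWD : ∀ k, ∃ e, W k ∣ (D * L) ^ e := by
    intro k
    obtain ⟨u, v, e, hu, hv, huv⟩ := class_mu hd hy hD hg0 (hh k) hg0b (hha k)
    refine ⟨e + 1, ?_⟩
    have h1 : v * W k = u * L := by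
      have h2 : ((v * W k : ℕ) : ℚ) = ((u * L : ℕ) : ℚ) := by
        push_cast
        rw [hW k, ← mul_assoc, huv]
      exact_mod_cast h2
    have h2 : W k ∣ u * L := Dvd.intro_left v h1
    refine h2.trans ?_
    rw [_root_.pow_succ, mul_pow]
    exact mul_dvd_mul ((hu.trans (Dvd.intro _ rfl))) (Dvd.intro_left _ rfl)
  obtain ⟨f1, hf1⟩ := exists_chain W hWD (Nat.mul_pos hD0 hL0) hWk
  -- two images intersect
  obtain ⟨C, hC1, hC2⟩ := hsyn _ hg0 _ _ hg0b
  obtain ⟨i, j, hij, x, hx1, hx2⟩ : ∃ i j : ℕ, i < j ∧ ∃ x, At y ((h (f1 i))⁻¹ * x) b L ∧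
      At y ((h (f1 j))⁻¹ * x) b L := by
    by_contra hcon
    push Not at hcon
    have h1 : C.card + 1 ≤ C.card := count S.finite_toSet hexp (N := {x | At y x b L}) C hC1
      (fun x hx => hC2 x hx) (K := C.card + 1) (fun i => h (f1 i)) (fun i => hh _) (by
        intro i j hij x _ h2 h3
        rcases lt_or_gt_of_ne (Fin.val_ne_of_ne hij) with h4 | h4
        · exact hcon i j h4 x h2 h3
        · exact hcon j i h4 x h3 h2)
    omega
  obtain ⟨hlt, β, hβ⟩ := hf1 i j hij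
  have hβ2 : 2 ≤ β := by
    have h1 := hWk (f1 i)
    by_contra h2
    have h3 : β = 0 ∨ β = 1 := by omega
    rcases h3 with h3 | h3
    · rw [h3, mul_zero] at hβ
      omega
    · rw [h3, mul_one] at hβ
      omega
  obtain ⟨n0, e1, e2⟩ := nh_exists hy (hx1.and hx2)
  set n1 := ((h (f1 i))⁻¹ * x) n0 with hn1
  set n2 := ((h (f1 j))⁻¹ * x) n0 with hn2
  have e3 : h (f1 i) n1 = h (f1 j) n2 := by
    rw [hn1, hn2]
    simp [Equiv.Perm.mul_apply]
  have hT : ∀ n : ℤ, (L : ℤ) ∣ n - b → ((h (f1 i))⁻¹ * h (f1 j)) n = n1 + β * (n - n2) := by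
    intro n hn
    have h1 : (L : ℤ) ∣ n - n2 := by
      have h2 : n - n2 = (n - b) - (n2 - b) := by ring
      rw [h2]
      exact dvd_sub hn e2
    have h3 : (L : ℤ) ∣ n1 + β * (n - n2) - b := by
      have h2 : n1 + β * (n - n2) - b = (n1 - b) + β * (n - n2) := by ring
      rw [h2]
      exact dvd_add e1 (h1.mul_left _)
    have h4 : h (f1 j) n = h (f1 i) (n1 + β * (n - n2)) := by
      have h5 : ((h (f1 j) n : ℤ) : ℚ) = ((h (f1 i) (n1 + β * (n - n2)) : ℤ) : ℚ) := by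
        rw [hha (f1 j) n hn, hha (f1 i) _ h3]
        have h6 : ((h (f1 i) n1 : ℤ) : ℚ) = ((h (f1 j) n2 : ℤ) : ℚ) := by rw [e3]
        rw [hha (f1 i) n1 e1, hha (f1 j) n2 e2] at h6
        have h7 : (a (f1 j)).1 = (a (f1 i)).1 * β := by
          have h8 : ((W (f1 j) : ℕ) : ℚ) = (W (f1 i) : ℚ) * β := by
            rw [hβ]
            push_cast
            ring
          rw [hW, hW] at h8
          have h9 : (a (f1 j)).1 * L = ((a (f1 i)).1 * β) * L := by linear_combination h8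
          exact mul_right_cancel₀ hLq.ne' h9
        push_cast
        linear_combination (n - n2 : ℚ) * h7 - h6
      exact_mod_cast h5
    rw [Equiv.Perm.mul_apply, h4]
    exact (h (f1 i)).symm_apply_apply _
  refine ⟨L, b, n1 - β * n2, β, (h (f1 i))⁻¹ * h (f1 j), g0, hL0, hβ2, mul_mem (inv_mem (hh _)) (hh _), hg0,
    hg0b, fun n hn => ?_, fun n hn => ?_⟩
  · rw [hT n hn]
    ring
  · rw [hT n hn]
    have h1 : (L : ℤ) ∣ n - n2 := by
      have h2 : n - n2 = (n - b) - (n2 - b) := by ring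
      rw [h2]
      exact dvd_sub hn e2
    have h2 : n1 + β * (n - n2) - b = (n1 - b) + β * (n - n2) := by ring
    rw [h2]
    exact dvd_add e1 (h1.mul_left _)

/-- an expanding self map of a class: the orbit meets the class only in the points which are equal to the rational
fixed point in the `β`-adic integers -/
theorem rational_coordinate {S : Finset (Equiv.Perm ℤ)} (hexp : NoExp (S : Set (Equiv.Perm ℤ)))
    (hd : Data (S : Set (Equiv.Perm ℤ)) M A) (hy : Pro y)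
    (hsyn : Synd (Subgroup.closure (S : Set (Equiv.Perm ℤ))) y) {L : ℕ} {b τ : ℤ} {β : ℕ}
    {T : Equiv.Perm ℤ} (hL0 : 0 < L) (hβ : 2 ≤ β) (hT : T ∈ Subgroup.closure (S : Set (Equiv.Perm ℤ)))
    (hT1 : ∀ n : ℤ, (L : ℤ) ∣ n - b → T n = β * n + τ)
    (hT2 : ∀ n : ℤ, (L : ℤ) ∣ n - b → (L : ℤ) ∣ T n - b) {h : Equiv.Perm ℤ}
    (hh : h ∈ Subgroup.closure (S : Set (Equiv.Perm ℤ))) (hhb : At y h b L) (i : ℕ) :
    ∀ᶠ n in nh y, ((β ^ i : ℕ) : ℤ) ∣ (β - 1) * h n + τ := by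
  classical
  set H := Subgroup.closure (S : Set (Equiv.Perm ℤ)) with hH
  have hpow : ∀ (i : ℕ) (n : ℤ), (L : ℤ) ∣ n - b → (L : ℤ) ∣ (T ^ i) n - b := by
    intro i
    induction i with
    | zero => intro n hn; simpa using hn
    | succ i ih =>
      intro n hn
      rw [_root_.pow_succ', Equiv.Perm.mul_apply]
      exact hT2 _ (ih n hn)
  -- the orbit meets the class in `T (class)`
  have hcore : ∀ h ∈ H, At y h b L → At y h (T b) (β * L) := by
    intro h hh hhb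
    have hβL : 0 < β * L := Nat.mul_pos (by omega) hL0
    obtain ⟨r, hr⟩ := at_exists hd hy hh (β * L) hβL
    by_contra hcon
    have hrb : (L : ℤ) ∣ r - b := At.unique hy (hr.dvd (Dvd.intro_left _ rfl)) hhb
    have hrT : ¬ ((β * L : ℕ) : ℤ) ∣ r - T b := fun h1 => hcon (hr.congr h1)
    obtain ⟨C, hC1, hC2⟩ := hsyn _ hh _ _ hr
    have hkey : ∀ i j : ℕ, i < j → ∀ x, At y ((T ^ i)⁻¹ * x) r (β * L) →
        ¬ At y ((T ^ j)⁻¹ * x) r (β * L) := by
      intro i j hij x h1 h2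
      obtain ⟨n0, e1, e2⟩ := nh_exists hy (h1.and h2)
      obtain ⟨d, rfl⟩ : ∃ d, j = i + 1 + d := ⟨j - i - 1, by omega⟩
      set v := ((T ^ (i + 1 + d))⁻¹ * x) n0 with hv
      have e3 : ((T ^ i)⁻¹ * x) n0 = T ((T ^ d) v) := by
        rw [hv]
        have e4 : (T ^ i)⁻¹ * x = T * T ^ d * ((T ^ (i + 1 + d))⁻¹ * x) := by group
        rw [e4]
        rfl
      have e4 : (L : ℤ) ∣ v - b := by
        have e5 : v - b = (v - r) + (r - b) := by ring
        rw [e5]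
        exact dvd_add ((Int.natCast_dvd_natCast.2 (Dvd.intro_left _ rfl)).trans e2) hrb
      have e5 := hpow d v e4
      rw [e3, hT1 _ e5] at e1
      refine hrT ?_
      rw [hT1 b (by simp)]
      have e6 : r - (β * b + τ) = β * ((T ^ d) v - b) - (β * (T ^ d) v + τ - r) := by ring
      rw [e6]
      refine dvd_sub ?_ e1
      rw [Nat.cast_mul]
      exact mul_dvd_mul_left _ e5
    have h1 : C.card + 1 ≤ C.card := count S.finite_toSet hexp (N := {x | At y x r (β * L)}) C hC1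
      (fun x hx => hC2 x hx) (K := C.card + 1) (fun i => T ^ (i : ℕ)) (fun i => pow_mem hT _) (by
        intro i j hij x _ h2 h3
        rcases lt_or_gt_of_ne (Fin.val_ne_of_ne hij) with h4 | h4
        · exact hkey i j h4 x h2 h3
        · exact hkey j i h4 x h3 h2)
    omega
  have hall : ∀ (i : ℕ), ∀ h ∈ H, At y h b L → At y h ((T ^ i) b) (β ^ i * L) := by
    intro i
    induction i with
    | zero =>
      intro h _ hhb
      simpa using hhb
    | succ i ih =>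
      intro h hh hhb
      have h1 := hcore h hh hhb
      have h2 : At y (T⁻¹ * h) b L := by
        filter_upwards [h1] with n hn
        obtain ⟨t, ht⟩ := hn
        have e1 : h n = T (b + L * t) := by
          rw [hT1 (b + L * t) ⟨t, by ring⟩]
          rw [hT1 b (by simp)] at ht
          push_cast at ht
          linear_combination ht
        have e2 : (T⁻¹ * h) n = b + L * t := by
          rw [Equiv.Perm.mul_apply, e1]
          exact T.symm_apply_apply _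
        rw [e2]
        exact ⟨t, by ring⟩
      have h3 := ih (T⁻¹ * h) (mul_mem (inv_mem hT) hh) h2
      filter_upwards [h2, h3] with n e1 e2
      obtain ⟨t, ht⟩ := e2
      refine ⟨t, ?_⟩
      have e3 : h n = T ((T⁻¹ * h) n) := by simp [Equiv.Perm.mul_apply]
      have e4 : (T ^ (i + 1)) b = β * (T ^ i) b + τ := by
        rw [_root_.pow_succ', Equiv.Perm.mul_apply, hT1 _ (hpow i b (by simp))]
      rw [e3, hT1 _ e1, e4]
      push_cast at ht ⊢
      rw [_root_.pow_succ]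
      linear_combination (β : ℤ) * ht
  have hfix : ∀ i : ℕ, ((β : ℤ) - 1) * (T ^ i) b + τ = β ^ i * ((β - 1) * b + τ) := by
    intro i
    induction i with
    | zero => simp
    | succ i ih =>
      rw [_root_.pow_succ', Equiv.Perm.mul_apply, hT1 _ (hpow i b (by simp)), _root_.pow_succ]
      linear_combination (β : ℤ) * ih
  have h1 := hall i h hh hhb
  filter_upwards [h1] with n hn
  have e1 : ((β : ℤ) - 1) * h n + τ = (β - 1) * (h n - (T ^ i) b) + β ^ i * ((β - 1) * b + τ) := by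
    rw [← hfix i]
    ring
  rw [e1]
  refine dvd_add (Dvd.dvd.mul_left ((Int.natCast_dvd_natCast.2 (Dvd.intro _ rfl)).trans hn) _) ?_
  push_cast
  exact Dvd.intro _ rfl

end Pool.Agent.Lgo
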