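import Pool.Agent.Lgo.Near
import Pool.Agent.Lgo.Defs
import Pool.Agent.Lgp.FinSl

/-!
# Slopes which are powers of one integer
-/

namespace Pool.Agent.Lgo

open Pool.Agent.CTm Pool.Agent.Grm Pool.Agent.Lgp Filter Nat

variable {S : Set (Equiv.Perm ℤ)} {M : ℕ} {A : Finset (ℚ × ℚ)} {y : ℕ → ℤ}

/-- one generator, applied to a class around the point `g y` -/
theorem aff_step (hd : Data S M A) (hy : Pro y) {g s : Equiv.Perm ℤ} (hg : g ∈ Subgroup.closure S)
    (hs : s ∈ S ∨ s⁻¹ ∈ S) {a b : ℚ × ℚ} (ha : Germ y g a) (hb : Germ y (s * g) b) :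
    ∃ σ : ℚ, b.1 = σ * a.1 ∧ ∀ᶠ n in nh y, ∀ m : ℤ, (M : ℤ) ∣ m - g n →
      ((s m : ℤ) : ℚ) - ((s (g n) : ℤ) : ℚ) = σ * (m - g n) := by
  obtain ⟨r, hr⟩ := at_exists hd hy hg M hd.pos
  obtain ⟨c, _, hc⟩ := hd.aff s hs r
  have h1 : Germ y (s * g) (c.1 * a.1, c.1 * a.2 + c.2) := by
    rw [germ_iff hy] at ha ⊢
    filter_upwards [ha, hr] with n h1 h2
    rw [Equiv.Perm.mul_apply, hc _ h2, h1]
    ring
  have h2 := Germ.unique hy hb h1
  refine ⟨c.1, by rw [h2], ?_⟩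
  filter_upwards [hr] with n hn m hm
  have e1 : m - r = (m - g n) + (g n - r) := by ring
  rw [hc _ hn, hc m (by rw [e1]; exact dvd_add hm hn)]
  ring

/-- Let `s` be a generator, `g ∈ H`. If the image of `c y + L ℤ` under `g c⁻¹` is a class around `g y` whose modulus is
divisible by `M`, then `s g c⁻¹` is affine on `c y + L ℤ`. -/
theorem aff_path (hd : Data S M A) (hy : Pro y) {c g s : Equiv.Perm ℤ} (hg : g ∈ Subgroup.closure S)
    (hs : s ∈ S ∨ s⁻¹ ∈ S) {L : ℕ} {γ a b : ℚ × ℚ} (ha : Germ y g a) (hb : Germ y (s * g) b)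
    (hL : ∃ t : ℤ, a.1 / γ.1 * L = M * t)
    (h : ∀ᶠ n in nh y, ∀ t : ℤ, (((g * c⁻¹) (c n + L * t) : ℤ) : ℚ) = g n + a.1 / γ.1 * (L * t)) :
    ∀ᶠ n in nh y, ∀ t : ℤ, (((s * g * c⁻¹) (c n + L * t) : ℤ) : ℚ) = (s * g) n + b.1 / γ.1 * (L * t) := by
  obtain ⟨σ, hσ, h1⟩ := aff_step hd hy hg hs ha hb
  obtain ⟨q, hq⟩ := hL
  filter_upwards [h1, h] with n h2 h3 t
  have h4 := h3 t
  have h5 := h2 ((g * c⁻¹) (c n + L * t)) (by
    refine ⟨q * t, ?_⟩
    have e1 : (((g * c⁻¹) (c n + L * t) - g n : ℤ) : ℚ) = (((M : ℤ) * (q * t) : ℤ) : ℚ) := by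
      rw [Int.cast_sub, h4]
      push_cast
      linear_combination (t : ℚ) * hq
    exact_mod_cast e1)
  rw [h4] at h5
  rw [mul_assoc s g, Equiv.Perm.mul_apply s (g * c⁻¹), Equiv.Perm.mul_apply s g, hσ]
  linear_combination h5

theorem exists_lcm_den (F : Finset ℚ) (hF : ∀ ρ ∈ F, 0 < ρ) (M : ℕ) (hM : 0 < M) :
    ∃ L : ℕ, 0 < L ∧ ∀ ρ ∈ F, ∀ ρ' ∈ F, ∃ t : ℤ, ρ / ρ' * L = M * t := by
  classical
  obtain ⟨L, _, hL0, _, hL, _⟩ := exists_mult ((F ×ˢ F).image fun p => p.1 / p.2) (by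
    intro σ hσ
    obtain ⟨p, hp, rfl⟩ := Finset.mem_image.1 hσ
    obtain ⟨h1, h2⟩ := Finset.mem_product.1 hp
    exact div_pos (hF _ h1) (hF _ h2)) M hM
  exact ⟨L, hL0, fun ρ hρ ρ' hρ' => hL _ (Finset.mem_image.2 ⟨(ρ, ρ'), Finset.mem_product.2 ⟨hρ, hρ'⟩, rfl⟩)⟩

theorem powSlopes_alt (hd : Data S M A) (hy : Pro y) {m : ℕ} (hm : 2 ≤ m)
    (h : PowSlopes m (Subgroup.closure S) y) :
    FinSlopes (Subgroup.closure S) y ∨ BigImage (Subgroup.closure S) y := by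
  classical
  set H := Subgroup.closure S with hH
  obtain ⟨F, hF⟩ := h
  have hm0 : (0 : ℚ) < m := by
    have : 0 < m := by omega
    exact_mod_cast this
  have h1 : ∀ g ∈ H, ∃ a : ℚ × ℚ, 0 < a.1 ∧ Germ y g a := fun g hg => exists_germ hd hy hg
  choose! a ha0 ha using h1
  have h2 : ∀ g ∈ H, ∃ ρ ∈ F, ∃ k : ℤ, (a g).1 = (m : ℚ) ^ k * ρ := fun g hg => hF g hg _ (ha g hg)
  choose! ρ hρ n hn using h2
  have hρ0 : ∀ g ∈ H, 0 < ρ g := by
    intro g hg
    have h3 := ha0 g hg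
    rw [hn g hg] at h3
    exact (mul_pos_iff_of_pos_left (zpow_pos hm0 _)).1 h3
  obtain ⟨L, hL0, hL⟩ := exists_lcm_den (F.filter fun ρ => 0 < ρ)
    (fun ρ hρ => (Finset.mem_filter.1 hρ).2) M hd.pos
  have hρF : ∀ g ∈ H, ρ g ∈ F.filter fun ρ => 0 < ρ := fun g hg =>
    Finset.mem_filter.2 ⟨hρ g hg, hρ0 g hg⟩
  -- the quotients of the slopes
  have hquot : ∀ g ∈ H, ∀ c ∈ H, (a g).1 / (a c).1 = (m : ℚ) ^ (n g - n c) * (ρ g / ρ c) := by
    intro g hg c hc
    rw [hn g hg, hn c hc, zpow_sub₀ hm0.ne']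
    have := (hρ0 c hc).ne'
    have := (zpow_pos hm0 (n c)).ne'
    field_simp
  have hdiv : ∀ g ∈ H, ∀ c ∈ H, n c ≤ n g → ∃ t : ℤ, (a g).1 / (a c).1 * L = M * t := by
    intro g hg c hc hle
    obtain ⟨t, ht⟩ := hL _ (hρF g hg) _ (hρF c hc)
    obtain ⟨k, hk⟩ := Int.eq_ofNat_of_zero_le (sub_nonneg.2 hle)
    refine ⟨(m : ℤ) ^ k * t, ?_⟩
    rw [hquot g hg c hc, hk, zpow_natCast]
    push_cast
    linear_combination (m : ℚ) ^ k * ht
  -- connections
  let st : ℤ → Equiv.Perm ℤ → Equiv.Perm ℤ → Prop := fun t u v =>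
    t ≤ n u ∧ t ≤ n v ∧ u ∈ H ∧ ∃ s, (s ∈ S ∨ s⁻¹ ∈ S) ∧ v = s * u
  have hst_symm : ∀ t u v, st t u v → st t v u := by
    rintro t u v ⟨h3, h4, h5, s, hs, rfl⟩
    refine ⟨h4, h3, mul_mem (gen_mem hs) h5, s⁻¹, ?_, by group⟩
    rcases hs with hs | hs
    · exact Or.inr (by rwa [inv_inv])
    · exact Or.inl hs
  have hst_symm' : ∀ t u v, Relation.ReflTransGen (st t) u v → Relation.ReflTransGen (st t) v u := by
    intro t u v huv
    induction huv with
    | refl => exact Relation.ReflTransGen.refl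
    | tail _ h3 ih => exact Relation.ReflTransGen.head (hst_symm _ _ _ h3) ih
  have hst_mono : ∀ {t t' : ℤ}, t' ≤ t → ∀ {u v}, Relation.ReflTransGen (st t) u v →
      Relation.ReflTransGen (st t') u v := by
    intro t t' htt u v huv
    induction huv with
    | refl => exact Relation.ReflTransGen.refl
    | tail _ h3 ih => exact ih.tail ⟨htt.trans h3.1, htt.trans h3.2.1, h3.2.2⟩
  have hst_ge : ∀ {t : ℤ} {u v}, Relation.ReflTransGen (st t) u v → t ≤ n u → t ≤ n v := by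
    intro t u v huv hu
    induction huv with
    | refl => exact hu
    | tail _ h3 _ => exact h3.2.1
  have hst_mem : ∀ {t : ℤ} {u v}, Relation.ReflTransGen (st t) u v → u ∈ H → v ∈ H := by
    intro t u v huv hu
    induction huv with
    | refl => exact hu
    | tail _ h3 _ =>
      obtain ⟨_, _, h5, s, hs, rfl⟩ := h3
      exact mul_mem (gen_mem hs) h5
  have hpath : ∀ l : List (Equiv.Perm ℤ), (∀ x ∈ l, x ∈ S ∨ x⁻¹ ∈ S) → ∃ c ∈ H,
      Relation.ReflTransGen (st (n c)) c 1 ∧ Relation.ReflTransGen (st (n c)) c l.prod := by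
    intro l
    induction l with
    | nil => exact fun _ => ⟨1, one_mem _, Relation.ReflTransGen.refl, Relation.ReflTransGen.refl⟩
    | cons s l ih =>
      intro hl
      have hl' : ∀ x ∈ l, x ∈ S ∨ x⁻¹ ∈ S := fun x hx => hl x (by simp [hx])
      have hs := hl s (by simp)
      obtain ⟨c, hc, h3, h4⟩ := ih hl'
      have hge := hst_ge h4 le_rfl
      have hmem := hst_mem h4 hc
      rw [List.prod_cons]
      rcases le_or_gt (n c) (n (s * l.prod)) with h5 | h5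
      · exact ⟨c, hc, h3, h4.tail ⟨hge, h5, hmem, s, hs, rfl⟩⟩
      · refine ⟨s * l.prod, mul_mem (gen_mem hs) hmem, ?_, Relation.ReflTransGen.refl⟩
        have h6 : st (n (s * l.prod)) (s * l.prod) l.prod :=
          hst_symm _ _ _ ⟨h5.le.trans hge, le_rfl, hmem, s, hs, rfl⟩
        refine Relation.ReflTransGen.head h6 ?_
        have h7 : Relation.ReflTransGen (st (n (s * l.prod))) l.prod c :=
          hst_symm' _ _ _ (hst_mono h5.le h4)
        exact h7.trans (hst_mono h5.le h3)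
  -- the affine maps
  have haff : ∀ c ∈ H, ∀ d, Relation.ReflTransGen (st (n c)) c d →
      ∀ᶠ k in nh y, ∀ t : ℤ, (((d * c⁻¹) (c k + L * t) : ℤ) : ℚ) =
        d k + (a d).1 / (a c).1 * (L * t) := by
    intro c hc d hcd
    induction hcd with
    | refl =>
      refine Eventually.of_forall fun k t => ?_
      rw [mul_inv_cancel, div_self (ha0 c hc).ne']
      push_cast [Equiv.Perm.one_apply]
      ring
    | tail _ h4 ih =>
      obtain ⟨h5, _, h6, s, hs, rfl⟩ := h4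
      exact aff_path hd hy h6 hs (ha _ h6) (ha _ (mul_mem (gen_mem hs) h6)) (hdiv _ h6 c hc h5) ih
  by_cases hbd : ∃ B : ℕ, ∀ g ∈ H, |n g| ≤ B
  · left
    obtain ⟨B, hB⟩ := hbd
    refine ⟨((Finset.Icc (-(B : ℤ)) B) ×ˢ F).image fun p => (m : ℚ) ^ p.1 * p.2, fun g hg b hb => ?_⟩
    rw [Germ.unique hy hb (ha g hg), hn g hg]
    refine Finset.mem_image.2 ⟨(n g, ρ g), Finset.mem_product.2 ⟨?_, hρ g hg⟩, rfl⟩
    exact Finset.mem_Icc.2 (abs_le.1 (hB g hg))
  · right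
    push Not at hbd
    refine ⟨L, hL0, fun k => ?_⟩
    obtain ⟨g, hg, hgn⟩ := hbd (k * L + (n 1).natAbs)
    obtain ⟨l, hl, hlg⟩ := list_of_closure hg
    obtain ⟨c, hc, h3, h4⟩ := hpath l hl
    rw [hlg] at h4
    -- one of the two is large
    obtain ⟨d, hd1, hd2, hd3⟩ : ∃ d ∈ H, Relation.ReflTransGen (st (n c)) c d ∧
        ((k * L : ℕ) : ℤ) ≤ n d - n c := by
      have h5 := hst_ge h3 le_rfl
      have h6 := hst_ge h4 le_rfl
      by_cases h7 : ((k * L : ℕ) : ℤ) ≤ n g - n c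
      · exact ⟨g, hg, h4, h7⟩
      · refine ⟨1, one_mem _, h3, ?_⟩
        push Not at h7
        have h8 : |n g| ≤ |n g - n 1| + |n 1| := by
          calc |n g| = |(n g - n 1) + n 1| := by rw [sub_add_cancel]
            _ ≤ _ := abs_add_le _ _
        have h9 : (((n 1).natAbs : ℕ) : ℤ) = |n 1| := Int.natCast_natAbs _
        push_cast at hgn h7 ⊢
        rcases abs_cases (n g - n 1) with ⟨h10, _⟩ | ⟨h10, _⟩
        · omega
        · omega
    have hdc : 0 < (a d).1 / (a c).1 := div_pos (ha0 d hd1) (ha0 c hc)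
    refine ⟨c, hc, d * c⁻¹, mul_mem hd1 (inv_mem hc),
      ((a d).1 / (a c).1, (a d).2 - (a d).1 / (a c).1 * (a c).2), ?_, ?_⟩
    · -- the slope
      show (k : ℚ) ≤ (a d).1 / (a c).1
      obtain ⟨t, ht⟩ := hL _ (hρF d hd1) _ (hρF c hc)
      have hM : (0 : ℚ) < M := by exact_mod_cast hd.pos
      have hLq : (0 : ℚ) < L := by exact_mod_cast hL0
      have hrat : 0 < ρ d / ρ c := div_pos (hρ0 d hd1) (hρ0 c hc)
      have h5 : (1 : ℚ) ≤ ρ d / ρ c * L := by
        rw [ht]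
        have h6 : (0 : ℚ) < (M : ℚ) * t := by rw [← ht]; positivity
        have h7 : 0 < (M : ℤ) * t := by exact_mod_cast h6
        have h8 : (1 : ℤ) ≤ (M : ℤ) * t := h7
        exact_mod_cast h8
      rw [hquot d hd1 c hc]
      obtain ⟨K, hK⟩ := Int.eq_ofNat_of_zero_le (a := n d - n c) (le_trans (by positivity) hd3)
      rw [hK, zpow_natCast]
      have h6 : k * L ≤ K := by
        rw [hK] at hd3
        exact_mod_cast hd3
      have h7 : (K : ℚ) ≤ (m : ℚ) ^ K := by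
        have h8 : K ≤ m ^ K := (Nat.lt_pow_self (by omega)).le
        exact_mod_cast h8
      have h8 : ((k : ℚ) * L) ≤ (m : ℚ) ^ K := by
        have h9 : ((k * L : ℕ) : ℚ) ≤ K := by exact_mod_cast h6
        push_cast at h9
        linarith
      have h9 : (k : ℚ) * L * 1 ≤ (m : ℚ) ^ K * (ρ d / ρ c * L) :=
        mul_le_mul h8 h5 zero_le_one (by positivity)
      have h10 : (k : ℚ) * L ≤ ((m : ℚ) ^ K * (ρ d / ρ c)) * L := by linarith
      exact le_of_mul_le_mul_right h10 hLq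
    · rw [← ev_iff hy]
      filter_upwards [haff c hc d hd2, (germ_iff hy).1 (ha c hc), (germ_iff hy).1 (ha d hd1)] with k e1 e2 e3 t
      rw [e1 t]
      push_cast
      rw [e2, e3]
      have hc0 := (ha0 c hc).ne'
      field_simp
      ring

/-- slopes with a common denominator -/
theorem comDen_alt (hd : Data S M A) (hy : Pro y) (h : ComDen (Subgroup.closure S) y) :
    FinSlopes (Subgroup.closure S) y ∨ BigImage (Subgroup.closure S) y := by
  classical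
  set H := Subgroup.closure S with hH
  obtain ⟨D, hD0, hD⟩ := h
  have h1 : ∀ g ∈ H, ∃ a : ℚ × ℚ, 0 < a.1 ∧ Germ y g a := fun g hg => exists_germ hd hy hg
  choose! a ha0 ha using h1
  have hD0' : (0 : ℚ) < D := by exact_mod_cast hD0
  have haff : ∀ l : List (Equiv.Perm ℤ), (∀ x ∈ l, x ∈ S ∨ x⁻¹ ∈ S) →
      ∀ᶠ k in nh y, ∀ t : ℤ, (((l.prod * 1⁻¹) ((1 : Equiv.Perm ℤ) k + (D * M : ℕ) * t) : ℤ) : ℚ) =
        l.prod k + (a l.prod).1 / ((1 : ℚ), (0 : ℚ)).1 * ((D * M : ℕ) * t) := by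
    intro l
    induction l with
    | nil =>
      intro _
      have h3 : a (1 : Equiv.Perm ℤ) = (1, 0) := Germ.unique hy (ha 1 (one_mem _)) Germ.one
      refine Eventually.of_forall fun k t => ?_
      simp [h3]
    | cons s l ih =>
      intro hl
      have hl' : ∀ x ∈ l, x ∈ S ∨ x⁻¹ ∈ S := fun x hx => hl x (by simp [hx])
      have hs := hl s (by simp)
      have hmem := list_mem hl'
      obtain ⟨t, ht⟩ := hD _ hmem _ (ha _ hmem)
      refine aff_path (γ := (1, 0)) hd hy hmem hs (ha _ hmem) ?_ ⟨t, ?_⟩ (ih hl')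
      · rw [List.prod_cons]
        exact ha _ (mul_mem (gen_mem hs) hmem)
      · push_cast
        rw [div_one]
        linear_combination (M : ℚ) * ht
  by_cases hbd : ∃ B : ℕ, ∀ g ∈ H, (a g).1 ≤ B
  · left
    obtain ⟨B, hB⟩ := hbd
    refine ⟨(Finset.Icc (0 : ℤ) (B * D)).image fun t : ℤ => (t : ℚ) / D, fun g hg b hb => ?_⟩
    rw [Germ.unique hy hb (ha g hg)]
    obtain ⟨t, ht⟩ := hD _ hg _ (ha g hg)
    refine Finset.mem_image.2 ⟨t, Finset.mem_Icc.2 ⟨?_, ?_⟩, ?_⟩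
    · have h3 : (0 : ℚ) < t := by
        rw [← ht]
        exact mul_pos (ha0 g hg) hD0'
      have h4 : (0 : ℤ) < t := by exact_mod_cast h3
      exact h4.le
    · have h3 : (t : ℚ) ≤ B * D := by
        rw [← ht]
        exact mul_le_mul_of_nonneg_right (hB g hg) hD0'.le
      exact_mod_cast h3
    · rw [← ht]
      field_simp
  · right
    push Not at hbd
    refine ⟨D * M, Nat.mul_pos hD0 hd.pos, fun k => ?_⟩
    obtain ⟨g, hg, hgk⟩ := hbd k
    obtain ⟨l, hl, hlg⟩ := list_of_closure hg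
    refine ⟨1, one_mem _, g, hg, a g, hgk.le, ?_⟩
    rw [← ev_iff hy]
    have h3 := haff l hl
    rw [hlg] at h3
    filter_upwards [h3, (germ_iff hy).1 (ha g hg)] with n e1 e2 t
    have e3 := e1 t
    rw [inv_one, mul_one] at e3
    rw [e3, e2]
    push_cast [Equiv.Perm.one_apply]
    ring

end Pool.Agent.Lgo
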